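import Pool.Agent.Lib.MP_011f3a_lc.LM.I.Stmt0

/-!
# Trees (module B-DEFS)

Trees are sets of finite sequences of natural numbers closed under initial segments (`s <+: t` means that `s` is an
initial segment of `t`).

The nodes `a` with `Kp T r a` (`r : List ℕ` is an index; its last entry comes FIRST) form a copy of the tree of finite
sequences: `Kp T [] a` for the first splitting node `a` of `T`, and if `Kp T r b` and `u` is the `n`-th number with
`b ++ [u] ∈ T`, then `Kp T (n :: r) a` for the first splitting node `a` of the part of `T` above `b ++ [u]`.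
`Nm T`: every node of `T` has at most one or infinitely many immediate successors (then the kept nodes exist).
`TLe m T' T`: `T' ⊆ T` and, if `m ≥ 1` and `T` is normal, then `T'` is normal and the nodes with an index of weight `< m` are
the same. If `m ≥ 1` and `T` is normal then `T` is the union of the finitely many regions `Rg T m r` (`wt r < m`).
-/

namespace Pool.Agent.Lib.MP_011f3a_lc.LM

/-- closed under initial segments -/
def IsTree (T : Set (List ℕ)) : Prop := ∀ s n, s ++ [n] ∈ T → s ∈ T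

/-- `s` is a node of `T` with infinitely many immediate successors -/
def Split (T : Set (List ℕ)) (s : List ℕ) : Prop := s ∈ T ∧ ∀ m, ∃ n ≥ m, s ++ [n] ∈ T

/-- Laver trees -/
def Laver (T : Set (List ℕ)) : Prop :=
  IsTree T ∧ ∃ s₀ ∈ T, ∀ s ∈ T, (s <+: s₀ ∨ s₀ <+: s) ∧ (s₀ <+: s → Split T s)

/-- rational perfect trees -/
def Miller (T : Set (List ℕ)) : Prop := IsTree T ∧ [] ∈ T ∧ ∀ s ∈ T, ∃ t, s <+: t ∧ Split T t

/-- the conditions of the iterand -/
def TC : Md → Set (List ℕ) → Prop
  | .laver, T => Laver T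
  | .miller, T => Miller T

/-- the nodes comparable with `s` -/
def abv (T : Set (List ℕ)) (s : List ℕ) : Set (List ℕ) := {t ∈ T | t <+: s ∨ s <+: t}

/-- `a` is the first splitting node of `T` (all nodes are comparable with it) -/
def St (T : Set (List ℕ)) (a : List ℕ) : Prop := Split T a ∧ ∀ s ∈ T, s <+: a ∨ a <+: s

/-- `u` is the `n`-th number with `a ++ [u] ∈ T` -/
def Suc (T : Set (List ℕ)) (a : List ℕ) (n u : ℕ) : Prop :=
  a ++ [u] ∈ T ∧ {v : ℕ | v < u ∧ a ++ [v] ∈ T}.ncard = n

/-- the kept nodes -/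
def Kp (T : Set (List ℕ)) : List ℕ → List ℕ → Prop
  | [], a => St T a
  | n :: r, a => ∃ b u, Kp T r b ∧ Suc T b n u ∧ St (abv T (b ++ [u])) a

/-- the weight of an index -/
def wt (r : List ℕ) : ℕ := r.sum + r.length

/-- `T` is normal: every node has infinitely many immediate successors or at most one -/
def Nm (T : Set (List ℕ)) : Prop := ∀ s ∈ T, Split T s ∨ ∀ n n', s ++ [n] ∈ T → s ++ [n'] ∈ T → n = n'

/-- `T' ⊆ T` and, for normal `T`, the nodes with index of weight `< m` are the same -/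
def TLe (m : ℕ) (T' T : Set (List ℕ)) : Prop :=
  T' ⊆ T ∧ ∀ r, wt r < m → Nm T → Nm T' ∧ ∀ a, Kp T r a → Kp T' r a

/-- the region of `T` with index `r`: the nodes comparable with the kept node `a` of index `r`, without those which
pass through a kept child of `a` of weight `< m` -/
def Rg (T : Set (List ℕ)) (m : ℕ) (r : List ℕ) : Set (List ℕ) :=
  {s ∈ T | ∃ a, Kp T r a ∧ (s <+: a ∨ a <+: s) ∧ ∀ n, wt (n :: r) < m → ∀ u, Suc T a n u → ¬ a ++ [u] <+: s}

/-- `g` is a branch: one sequence of every length, each an initial segment of the next -/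
def Branch (g : Set (List ℕ)) : Prop :=
  (∀ n, ∃ s ∈ g, s.length = n) ∧ ∀ s ∈ g, ∀ t ∈ g, s.length ≤ t.length → s <+: t

end Pool.Agent.Lib.MP_011f3a_lc.LM

/-! # Basic facts about trees (module B-BASIC)

Elementary facts. `Laver.miller`: a node `s` which is comparable with the stem `s₀`: if `s <+: s₀` take `t = s₀`, otherwise `t = s`.
`TC.of_subset_abv`: `T` contains a node of length `≥ s.length`; it is comparable with `s`, so it extends `s`, and `T` is closed under
initial segments. -/

namespace Pool.Agent.Lib.MP_011f3a_lc.LM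

variable {md : Md} {T T' : Set (List ℕ)} {s t a b : List ℕ}

/-- two initial segments of one sequence are comparable -/
theorem prefix_or (h : s <+: a) (h' : t <+: a) : s <+: t ∨ t <+: s :=
  List.prefix_or_prefix_of_prefix h h'

theorem IsTree.of_prefix (h : IsTree T) (hst : s <+: t) (ht : t ∈ T) : s ∈ T := by
  obtain ⟨u, rfl⟩ := hst
  induction u using List.reverseRecOn with
  | nil => simpa using ht
  | append_singleton u n ih =>
    apply ih
    apply h _ n
    simpa using ht

theorem isTree_abv (h : IsTree T) (s : List ℕ) : IsTree (abv T s) := by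
  intro t n ht
  refine ⟨h t n ht.1, ?_⟩
  rcases ht.2 with h1 | h1
  · exact Or.inl ((List.prefix_append t [n]).trans h1)
  · exact prefix_or (List.prefix_append t [n]) h1

theorem abv_subset (T : Set (List ℕ)) (s : List ℕ) : abv T s ⊆ T := fun _ h => h.1

theorem abv_mono (h : T ⊆ T') (s : List ℕ) : abv T s ⊆ abv T' s := fun _ ht => ⟨h ht.1, ht.2⟩

theorem mem_abv_self (h : s ∈ T) : s ∈ abv T s := ⟨h, Or.inl (List.prefix_refl s)⟩

theorem mem_abv_of_prefix (h : t ∈ T) (hs : s <+: t) : t ∈ abv T s := ⟨h, Or.inr hs⟩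

theorem abv_nil (T : Set (List ℕ)) : abv T [] = T := by
  ext t
  exact ⟨fun h => h.1, fun h => ⟨h, Or.inr List.nil_prefix⟩⟩

theorem abv_abv (h : s <+: t) : abv (abv T s) t = abv T t := by
  ext x
  constructor
  · rintro ⟨⟨h1, _⟩, h3⟩
    exact ⟨h1, h3⟩
  · rintro ⟨h1, h3⟩
    refine ⟨⟨h1, ?_⟩, h3⟩
    rcases h3 with h3 | h3
    · exact prefix_or h3 h
    · exact Or.inr (h.trans h3)

theorem Split.mono (h : Split T s) (hT : T ⊆ T') : Split T' s :=
  ⟨hT h.1, fun m => by
    obtain ⟨n, hn, hn'⟩ := h.2 m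
    exact ⟨n, hn, hT hn'⟩⟩

theorem split_abv (h : Split T t) (hs : s <+: t) : Split (abv T s) t :=
  ⟨mem_abv_of_prefix h.1 hs, fun m => by
    obtain ⟨n, hn, hn'⟩ := h.2 m
    exact ⟨n, hn, mem_abv_of_prefix hn' (hs.trans (List.prefix_append _ _))⟩⟩

theorem Split.of_abv (h : Split (abv T s) t) : Split T t := h.mono (abv_subset T s)

theorem Laver.miller (h : Laver T) : Miller T := by
  obtain ⟨hT, s₀, hs₀, h⟩ := h
  refine ⟨hT, hT.of_prefix List.nil_prefix hs₀, fun s hs => ?_⟩
  rcases (h s hs).1 with h1 | h1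
  · exact ⟨s₀, h1, (h s₀ hs₀).2 (List.prefix_refl _)⟩
  · exact ⟨s, List.prefix_refl _, (h s hs).2 h1⟩

theorem TC.miller (h : TC md T) : Miller T := by
  cases md with
  | laver => exact Laver.miller h
  | miller => exact h

theorem TC.isTree (h : TC md T) : IsTree T := h.miller.1

theorem TC.nil_mem (h : TC md T) : [] ∈ T := h.miller.2.1

theorem TC.exists_split (h : TC md T) (hs : s ∈ T) : ∃ t, s <+: t ∧ Split T t := h.miller.2.2 s hs

theorem TC.exists_long (h : TC md T) (hs : s ∈ T) (n : ℕ) : ∃ t ∈ T, s <+: t ∧ n ≤ t.length := by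
  induction n with
  | zero => exact ⟨s, hs, List.prefix_refl _, Nat.zero_le _⟩
  | succ n ih =>
    obtain ⟨t, ht, hst, hn⟩ := ih
    obtain ⟨t', htt', hsp⟩ := h.exists_split ht
    obtain ⟨k, _, hk⟩ := hsp.2 0
    refine ⟨t' ++ [k], hk, (hst.trans htt').trans (List.prefix_append _ _), ?_⟩
    have := htt'.length_le
    simp
    omega

theorem tc_abv (h : TC md T) (hs : s ∈ T) : TC md (abv T s) := by
  cases md with
  | laver =>
    obtain ⟨hT, s₀, hs₀, h⟩ := h
    refine ⟨isTree_abv hT s, ?_⟩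
    rcases (h s hs).1 with h1 | h1
    · refine ⟨s₀, mem_abv_of_prefix hs₀ h1, fun t ht => ⟨(h t ht.1).1, fun h2 => ?_⟩⟩
      exact split_abv ((h t ht.1).2 h2) (h1.trans h2)
    · refine ⟨s, mem_abv_self hs, fun t ht => ⟨ht.2, fun h2 => ?_⟩⟩
      exact split_abv ((h t ht.1).2 (h1.trans h2)) h2
  | miller =>
    obtain ⟨hT, hnil, h⟩ := h
    refine ⟨isTree_abv hT s, ⟨hnil, Or.inl List.nil_prefix⟩, fun t ht => ?_⟩
    rcases ht.2 with h1 | h1
    · obtain ⟨u, hu, hsp⟩ := h s hs
      exact ⟨u, h1.trans hu, split_abv hsp hu⟩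
    · obtain ⟨u, hu, hsp⟩ := h t ht.1
      exact ⟨u, hu, split_abv hsp (h1.trans hu)⟩

theorem TC.univ : TC md (Set.univ : Set (List ℕ)) := by
  have hsp : ∀ s : List ℕ, Split Set.univ s := fun s => ⟨trivial, fun m => ⟨m, le_refl _, trivial⟩⟩
  cases md with
  | laver => exact ⟨fun _ _ _ => trivial, [], trivial, fun s _ => ⟨Or.inr List.nil_prefix, fun _ => hsp s⟩⟩
  | miller => exact ⟨fun _ _ _ => trivial, trivial, fun s _ => ⟨s, List.prefix_refl _, hsp s⟩⟩

theorem TC.of_subset_abv (h : TC md T) (hs : T ⊆ abv Set.univ s) : s ∈ T := by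
  obtain ⟨t, ht, _, hn⟩ := h.exists_long h.nil_mem s.length
  rcases (hs ht).2 with h1 | h1
  · have := h1.eq_of_length_le hn
    exact this ▸ ht
  · exact h.isTree.of_prefix h1 ht

theorem Branch.of_prefix {g : Set (List ℕ)} (h : Branch g) (hst : s <+: t) (ht : t ∈ g) : s ∈ g := by
  obtain ⟨u, hu, hul⟩ := h.1 s.length
  have h1 : u <+: t := h.2 u hu t ht (by rw [hul]; exact hst.length_le)
  have h2 : s = u := by
    rcases prefix_or hst h1 with h3 | h3
    · exact h3.eq_of_length hul.symm
    · exact (h3.eq_of_length hul).symm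
  exact h2 ▸ hu

theorem Branch.compar {g : Set (List ℕ)} (h : Branch g) (hs : s ∈ g) (ht : t ∈ g) : s <+: t ∨ t <+: s := by
  rcases le_total s.length t.length with h1 | h1
  · exact Or.inl (h.2 s hs t ht h1)
  · exact Or.inr (h.2 t ht s hs h1)

/-- a branch of a tree all of whose nodes are comparable with `s` passes through `s` -/
theorem Branch.mem_of_sub {g : Set (List ℕ)} (h : Branch g) (hs : ∀ t ∈ g, t <+: s ∨ s <+: t) : s ∈ g := by
  obtain ⟨u, hu, hul⟩ := h.1 s.length
  rcases hs u hu with h1 | h1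
  · exact h1.eq_of_length hul ▸ hu
  · exact (h1.eq_of_length hul.symm).symm ▸ hu

end Pool.Agent.Lib.MP_011f3a_lc.LM
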