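import Pool.Agent.Lib.MP_011f3a_lc.LM.B.Defs

/-! # Numbering of the immediate successors (module B-SUC)

`Suc T a n u` says that `u` is the `n`-th number (starting with `n = 0`) such that `a ++ [u] ∈ T`. The set
`{u | a ++ [u] ∈ T}` is infinite if `a` is a splitting node. (`Nat.nth`, `Nat.count` may be useful.) -/

namespace Pool.Agent.Lib.MP_011f3a_lc.LM

variable {T T' : Set (List ℕ)} {s t a b : List ℕ} {n n' u u' : ℕ}

private theorem suc_count (T : Set (List ℕ)) (a : List ℕ) [DecidablePred fun v => a ++ [v] ∈ T] (u : ℕ) :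
    {v : ℕ | v < u ∧ a ++ [v] ∈ T}.ncard = Nat.count (fun v => a ++ [v] ∈ T) u := by
  rw [Nat.count_eq_card_filter_range, ← Set.ncard_coe_finset]
  congr 1
  ext v
  simp

theorem Suc.mem (h : Suc T a n u) : a ++ [u] ∈ T := h.1

theorem Suc.lt (h : Suc T a n u) (h' : Suc T a n' u') (hn : n < n') : u < u' := by
  classical
  have h1 := h.2
  have h2 := h'.2
  rw [suc_count] at h1 h2
  by_contra hc
  have := Nat.count_monotone (fun v => a ++ [v] ∈ T) (not_lt.mp hc)
  omega

theorem Suc.unique (h : Suc T a n u) (h' : Suc T a n u') : u = u' := by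
  classical
  have h1 := h.2
  have h2 := h'.2
  rw [suc_count] at h1 h2
  rcases lt_trichotomy u u' with h3 | h3 | h3
  · have := Nat.count_strict_mono (p := fun v => a ++ [v] ∈ T) h.1 h3
    omega
  · exact h3
  · have := Nat.count_strict_mono (p := fun v => a ++ [v] ∈ T) h'.1 h3
    omega

theorem Suc.inj (h : Suc T a n u) (h' : Suc T a n' u) : n = n' := by
  rw [← h.2, ← h'.2]

theorem Suc.le (h : Suc T a n u) : n ≤ u := by
  classical
  have h1 := h.2
  rw [suc_count] at h1
  rw [← h1]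
  exact Nat.count_le _

theorem exists_suc (h : Split T a) (n : ℕ) : ∃ u, Suc T a n u := by
  classical
  have hinf : (setOf fun v => a ++ [v] ∈ T).Infinite := by
    rw [Set.infinite_iff_exists_gt]
    intro m
    obtain ⟨k, hk, hk'⟩ := h.2 (m + 1)
    exact ⟨k, hk', by omega⟩
  refine ⟨Nat.nth (fun v => a ++ [v] ∈ T) n, Nat.nth_mem_of_infinite hinf n, ?_⟩
  rw [suc_count]
  exact Nat.count_nth_of_infinite hinf n

/-- every child has a number -/
theorem exists_index (h : a ++ [u] ∈ T) : ∃ n, Suc T a n u := ⟨_, h, rfl⟩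

/-- the number only depends on the children up to `u` -/
theorem Suc.congr (h : Suc T a n u) (hT : ∀ v ≤ u, (a ++ [v] ∈ T ↔ a ++ [v] ∈ T')) : Suc T' a n u := by
  refine ⟨(hT u le_rfl).1 h.1, ?_⟩
  rw [← h.2]
  congr 1
  ext v
  simp only [Set.mem_setOf_eq]
  constructor
  · rintro ⟨h1, h2⟩
    exact ⟨h1, (hT v h1.le).2 h2⟩
  · rintro ⟨h1, h2⟩
    exact ⟨h1, (hT v h1.le).1 h2⟩

theorem suc_abv (hs : s <+: a) : Suc (abv T s) a n u ↔ Suc T a n u := by
  have key : ∀ v, a ++ [v] ∈ abv T s ↔ a ++ [v] ∈ T := fun v =>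
    ⟨fun h => h.1, fun h => mem_abv_of_prefix h (hs.trans (List.prefix_append _ _))⟩
  constructor
  · intro h
    exact h.congr fun v _ => key v
  · intro h
    exact h.congr fun v _ => (key v).symm

/-- if the children of `a` are the values of a strictly increasing sequence, then the `n`-th child is the `n`-th value -/
theorem suc_of_strictMono (f : ℕ → ℕ) (hf : StrictMono f) (h : ∀ v, a ++ [v] ∈ T ↔ ∃ n, v = f n) (n : ℕ) : Suc T a n (f n) := by
  refine ⟨(h _).2 ⟨n, rfl⟩, ?_⟩
  have : {v : ℕ | v < f n ∧ a ++ [v] ∈ T} = f '' (Set.Iio n) := by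
    ext v
    simp only [Set.mem_setOf_eq, Set.mem_image, Set.mem_Iio]
    constructor
    · rintro ⟨h1, h2⟩
      obtain ⟨m, rfl⟩ := (h v).1 h2
      exact ⟨m, hf.lt_iff_lt.1 h1, rfl⟩
    · rintro ⟨m, hm, rfl⟩
      exact ⟨hf hm, (h _).2 ⟨m, rfl⟩⟩
  rw [this, Set.ncard_image_of_injective _ hf.injective, ← Finset.coe_Iio, Set.ncard_coe_finset]
  simp

end Pool.Agent.Lib.MP_011f3a_lc.LM
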