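import Pool.Agent.Lib.MP_011f3a_lc.LM.B.Defs

/-! # Weights of indices (module B-WT)

There are finitely many lists of length `< m` with entries `< m`. -/

namespace Pool.Agent.Lib.MP_011f3a_lc.LM

theorem wt_nil : wt [] = 0 := rfl

theorem wt_cons (n : ℕ) (r : List ℕ) : wt (n :: r) = wt r + n + 1 := by
  simp only [wt, List.sum_cons, List.length_cons]
  omega

theorem wt_le_of_suffix {r r' : List ℕ} (h : r <:+ r') : wt r ≤ wt r' := by
  obtain ⟨l, rfl⟩ := h
  simp only [wt, List.sum_append, List.length_append]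
  omega

theorem finite_wt (m : ℕ) : {r : List ℕ | wt r < m}.Finite := by
  induction m with
  | zero => simp
  | succ m ih =>
    refine (((Set.finite_Iio (m + 1)).prod ih).image (fun p : ℕ × List ℕ => p.1 :: p.2)).insert [] |>.subset ?_
    intro r hr
    cases r with
    | nil => exact Set.mem_insert _ _
    | cons n r =>
      have h1 : wt (n :: r) < m + 1 := hr
      rw [wt_cons] at h1
      refine Set.mem_insert_of_mem _ ⟨(n, r), ⟨?_, ?_⟩, rfl⟩
      · show n < m + 1
        omega
      · show wt r < m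
        omega

/-- the finite set of the indices of weight `< m` -/
noncomputable def KS (m : ℕ) : Finset (List ℕ) := (finite_wt m).toFinset

theorem mem_KS {m : ℕ} {r : List ℕ} : r ∈ KS m ↔ wt r < m := by
  unfold KS
  rw [Set.Finite.mem_toFinset]
  exact Iff.rfl

theorem nil_mem_KS {m : ℕ} (hm : 0 < m) : [] ∈ KS m := mem_KS.2 (by rw [wt_nil]; exact hm)

theorem KS_mono {m m' : ℕ} (h : m ≤ m') : KS m ⊆ KS m' := fun _ hr =>
  mem_KS.2 (lt_of_lt_of_le (mem_KS.1 hr) h)

theorem KS_pos {m : ℕ} (hm : 0 < m) : 0 < (KS m).card := Finset.card_pos.2 ⟨[], nil_mem_KS hm⟩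

end Pool.Agent.Lib.MP_011f3a_lc.LM
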