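import Pool.Agent.Lib.MP_011f3a_lc.LM.B.St
import Pool.Agent.Lib.MP_011f3a_lc.LM.B.Suc
import Pool.Agent.Lib.MP_011f3a_lc.LM.B.Wt

/-! # Kept nodes (module B-KP)

`Kp T r a`: `a` is the node with index `r` (the latest digit of `r` comes first). Induction on `r`. `Kp.of_prefix`: for two
indices let `r₀` be the longest common suffix (`r₀ <:+ r`, `r₀ <:+ r'`); if it is a proper suffix of both, the nodes lie above different
children of the node with index `r₀`. `exists_kp_of_mem`: by induction on `s.length`: if `s` is not an initial segment of `St T`, it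
extends a child of it; use the tree `abv T (b ++ [u])` and `kp_abv`. -/

namespace Pool.Agent.Lib.MP_011f3a_lc.LM

variable {md : Md} {T T' : Set (List ℕ)} {s t a a' b : List ℕ} {r r' : List ℕ} {n n' u u' : ℕ}

/-- the first splitting node of the part above `s` extends `s` -/
private theorem kp_st_abv_prefix (h : St (abv T s) a) : s <+: a := by
  rcases h.1.1.2 with h1 | h1
  · by_cases he : a = s
    · exact he ▸ List.prefix_refl _
    · exfalso
      obtain ⟨v, rfl⟩ := h1
      cases v with
      | nil => simp at he
      | cons k v =>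
        obtain ⟨m, hm, hm'⟩ := h.1.2 (k + 1)
        have hk : a ++ [k] <+: a ++ k :: v := ⟨v, by simp⟩
        have e : a ++ [m] = a ++ [k] := by
          rcases hm'.2 with h2 | h2
          · rcases prefix_or h2 hk with h3 | h3
            · exact h3.eq_of_length (by simp)
            · exact (h3.eq_of_length (by simp)).symm
          · have h4 := hk.trans h2
            exact (h4.eq_of_length (by simp)).symm
        simp at e
        omega
  · exact h1

theorem kp_nil : Kp T [] a ↔ St T a := Iff.rfl

theorem kp_cons : Kp T (n :: r) a ↔ ∃ b u, Kp T r b ∧ Suc T b n u ∧ St (abv T (b ++ [u])) a := Iff.rfl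

theorem Kp.unique (h : Kp T r a) (h' : Kp T r a') : a = a' := by
  induction r generalizing a a' with
  | nil => exact St.unique h h'
  | cons n r ih =>
    obtain ⟨b, u, hb, hu, ha⟩ := h
    obtain ⟨b', u', hb', hu', ha'⟩ := h'
    have e := ih hb hb'
    subst e
    have e := hu.unique hu'
    subst e
    exact ha.unique ha'

theorem Kp.split (h : Kp T r a) : Split T a := by
  cases r with
  | nil => exact h.1
  | cons n r =>
    obtain ⟨b, u, hb, hu, ha⟩ := h
    exact ha.1.of_abv

theorem Kp.mem (h : Kp T r a) : a ∈ T := h.split.1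

/-- the first splitting node above a child of a kept node -/
theorem Kp.exists_cons (h : TC md T) (hn : Nm T) (hb : Kp T r b) (hu : Suc T b n u) :
    ∃ a, Kp T (n :: r) a ∧ b ++ [u] <+: a ∧ St (abv T (b ++ [u])) a := by
  obtain ⟨a, ha⟩ := exists_St (tc_abv h hu.mem) (nm_abv hn (b ++ [u]))
  exact ⟨a, ⟨b, u, hb, hu, ha⟩, kp_st_abv_prefix ha, ha⟩

theorem exists_kp (h : TC md T) (hn : Nm T) (r : List ℕ) : ∃ a, Kp T r a := by
  induction r with
  | nil => exact exists_St h hn
  | cons n r ih =>
    obtain ⟨b, hb⟩ := ih
    obtain ⟨u, hu⟩ := exists_suc hb.split n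
    obtain ⟨a, ha, _⟩ := Kp.exists_cons h hn hb hu
    exact ⟨a, ha⟩

theorem Kp.st_abv (h : Kp T (n :: r) a) (hb : Kp T r b) (hu : Suc T b n u) : St (abv T (b ++ [u])) a := by
  obtain ⟨b', u', hb', hu', ha'⟩ := h
  have e := hb.unique hb'
  subst e
  have e := hu.unique hu'
  subst e
  exact ha'

theorem Kp.cons_prefix (h : Kp T (n :: r) a) (hb : Kp T r b) (hu : Suc T b n u) : b ++ [u] <+: a :=
  kp_st_abv_prefix (h.st_abv hb hu)

end Pool.Agent.Lib.MP_011f3a_lc.LM

/-! # Kept nodes, part 2 (module B-KPB)

See the header of B/Kp.lean. `Kp.suffix_of_prefix`: let `r₀` be the longest common suffix of `r` and `r'`; if it is a proper suffix of both, the nodes lie above different children of the node with index `r₀`. `exists_kp_of_mem`: if `s` is not an initial segment of the first splitting node `b`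
then it extends a child `b ++ [u]`; apply the induction hypothesis (on `s.length - b.length`, or on the number of steps) to the kept nodes above: show by induction on `k` that `s` is an initial segment of a kept node or extends a kept node whose index has length `k` (`exists_child`, `Kp.exists_cons`), and use `length_le_of_kp`. -/

namespace Pool.Agent.Lib.MP_011f3a_lc.LM

variable {md : Md} {T T' : Set (List ℕ)} {s t a a' b : List ℕ} {r r' : List ℕ} {n n' u u' : ℕ}

theorem Kp.prefix_of_suffix (h : Kp T r a) (h' : Kp T r' a') (hr : r <:+ r') : a <+: a' := by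
  induction r' generalizing a' with
  | nil =>
    have := List.eq_nil_of_suffix_nil hr
    subst this
    exact h.unique h' ▸ List.prefix_refl _
  | cons n' r' ih =>
    rcases List.suffix_cons_iff.1 hr with h1 | h1
    · subst h1
      exact h.unique h' ▸ List.prefix_refl _
    · obtain ⟨b, u, hb, hu, hs⟩ := h'
      have h2 : b ++ [u] <+: a' := Kp.cons_prefix ⟨b, u, hb, hu, hs⟩ hb hu
      exact ((ih hb h1).trans (List.prefix_append _ _)).trans h2

/-- two kept nodes which have a common extension have comparable indices -/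
theorem Kp.suffix_or (h : Kp T r a) (h' : Kp T r' a') (ha : a <+: s) (ha' : a' <+: s) : r <:+ r' ∨ r' <:+ r := by
  induction r generalizing a r' a' with
  | nil => exact Or.inl (List.nil_suffix)
  | cons n r ih =>
    induction r' generalizing a' with
    | nil => exact Or.inr (List.nil_suffix)
    | cons n' r' ih' =>
      have h0 := h
      have h0' := h'
      obtain ⟨b, u, hb, hu, hs⟩ := h
      obtain ⟨b', u', hb', hu', hs'⟩ := h'
      have h1 : b ++ [u] <+: a := h0.cons_prefix hb hu
      have h1' : b' ++ [u'] <+: a' := h0'.cons_prefix hb' hu'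
      have h2 : b <+: s := ((List.prefix_append _ _).trans h1).trans ha
      have h2' : b' <+: s := ((List.prefix_append _ _).trans h1').trans ha'
      rcases ih' hb' h2' with h3 | h3
      · exact Or.inl (h3.trans (List.suffix_cons _ _))
      · rcases List.suffix_cons_iff.1 h3 with h4 | h4
        · exact Or.inl (h4 ▸ List.suffix_cons _ _)
        · rcases ih hb h0' h2 ha' with h5 | h5
          · rcases List.suffix_cons_iff.1 h5 with h6 | h6
            · exact Or.inr (h6 ▸ List.suffix_cons _ _)
            · have e : r = r' := h6.eq_of_length_le h4.length_le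
              subst e
              have e := hb.unique hb'
              subst e
              have e : b ++ [u] = b ++ [u'] := by
                rcases prefix_or (h1.trans ha) (h1'.trans ha') with h7 | h7
                · exact h7.eq_of_length (by simp)
                · exact (h7.eq_of_length (by simp)).symm
              have e : u = u' := by simpa using e
              subst e
              have e := hu.inj hu'
              subst e
              exact Or.inl (List.suffix_refl _)
          · exact Or.inr (h5.trans (List.suffix_cons _ _))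

theorem length_le_of_kp (h : Kp T r a) : r.length ≤ a.length := by
  induction r generalizing a with
  | nil => simp
  | cons n r ih =>
    have h0 := h
    obtain ⟨b, u, hb, hu, hs⟩ := h
    have h1 := (h0.cons_prefix hb hu).length_le
    have h2 := ih hb
    simp at h1
    simp
    omega

theorem Kp.suffix_of_prefix (h : Kp T r a) (h' : Kp T r' a') (hr : a <+: a') : r <:+ r' := by
  rcases h.suffix_or h' hr (List.prefix_refl _) with h1 | h1
  · exact h1
  · cases r with
    | nil => exact List.nil_suffix
    | cons n r =>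
      rcases List.suffix_cons_iff.1 h1 with h2 | h2
      · exact h2 ▸ List.suffix_refl _
      · exfalso
        have h0 := h
        obtain ⟨b, u, hb, hu, hs⟩ := h
        have h3 := (h0.cons_prefix hb hu).length_le
        have h4 := (Kp.prefix_of_suffix h' hb h2).length_le
        have h5 := hr.length_le
        simp at h3
        omega

theorem Kp.inj (h : Kp T r a) (h' : Kp T r' a) : r = r' :=
  (h.suffix_of_prefix h' (List.prefix_refl _)).eq_of_length_le
    (h'.suffix_of_prefix h (List.prefix_refl _)).length_le

/-- a node above a kept node `b` other than `b` extends exactly one child of `b` -/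
theorem exists_child (ht : IsTree T) (hb : b <+: s) (hne : s ≠ b) (hs : s ∈ T) : ∃ n u, Suc T b n u ∧ b ++ [u] <+: s := by
  obtain ⟨v, rfl⟩ := hb
  cases v with
  | nil => simp at hne
  | cons u v =>
    have h1 : b ++ [u] <+: b ++ u :: v := ⟨v, by simp⟩
    obtain ⟨n, hn⟩ := exists_index (ht.of_prefix h1 hs)
    exact ⟨n, u, hn, h1⟩

/-- every node is an initial segment of a kept node -/
theorem exists_kp_of_mem (h : TC md T) (hn : Nm T) (hs : s ∈ T) : ∃ r a, Kp T r a ∧ s <+: a := by
  have key : ∀ k : ℕ, ∃ r a, Kp T r a ∧ (s <+: a ∨ (a <+: s ∧ r.length = k)) := by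
    intro k
    induction k with
    | zero =>
      obtain ⟨a, ha⟩ := exists_St h hn
      refine ⟨[], a, ha, ?_⟩
      rcases ha.2 s hs with h1 | h1
      · exact Or.inl h1
      · exact Or.inr ⟨h1, rfl⟩
    | succ k ih =>
      obtain ⟨r, a, ha, h1 | ⟨h1, h2⟩⟩ := ih
      · exact ⟨r, a, ha, Or.inl h1⟩
      · by_cases he : s = a
        · exact ⟨r, a, ha, Or.inl (he ▸ List.prefix_refl _)⟩
        · obtain ⟨n, u, hu, hus⟩ := exists_child h.isTree h1 he hs
          obtain ⟨a', ha', h3, h4⟩ := Kp.exists_cons h hn ha hu
          refine ⟨n :: r, a', ha', ?_⟩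
          rcases h4.2 s (mem_abv_of_prefix hs hus) with h5 | h5
          · exact Or.inl h5
          · exact Or.inr ⟨h5, by simp [h2]⟩
  obtain ⟨r, a, ha, h1 | ⟨h1, h2⟩⟩ := key (s.length + 1)
  · exact ⟨r, a, ha, h1⟩
  · exfalso
    have h3 := length_le_of_kp ha
    have h4 := h1.length_le
    omega

/-- in a Laver tree the kept nodes are the nodes which extend the stem -/
theorem Laver.kp_cons (h : Laver T) (hb : Kp T r b) (hu : Suc T b n u) : Kp T (n :: r) (b ++ [u]) := by
  obtain ⟨a, ha, _⟩ := h.exists_st
  have h1 : a <+: b := Kp.prefix_of_suffix (r := []) ha hb List.nil_suffix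
  exact ⟨b, u, hb, hu, h.st_abv ha hu.mem (h1.trans (List.prefix_append _ _))⟩

end Pool.Agent.Lib.MP_011f3a_lc.LM

/-! # The regions of a tree (module B-REG)

`Rg T m r` (`wt r < m`): the nodes comparable with the kept node `a` of index `r`, except those which extend one of the first children
`a ++ [u]` (those with number `n`, `wt (n :: r) < m`). `reg_tc`: in the Laver case use `laver_of_st`. -/

namespace Pool.Agent.Lib.MP_011f3a_lc.LM

variable {md : Md} {T : Set (List ℕ)} {s a : List ℕ} {r : List ℕ} {m : ℕ}

theorem reg_subset (T : Set (List ℕ)) (m : ℕ) (r : List ℕ) : Rg T m r ⊆ T := fun _ h => h.1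

theorem mem_reg (ha : Kp T r a) : s ∈ Rg T m r ↔
    s ∈ T ∧ (s <+: a ∨ a <+: s) ∧ ∀ n, wt (n :: r) < m → ∀ u, Suc T a n u → ¬ a ++ [u] <+: s := by
  constructor
  · rintro ⟨h1, b, hb, h2, h3⟩
    obtain rfl := ha.unique hb
    exact ⟨h1, h2, h3⟩
  · rintro ⟨h1, h2, h3⟩
    exact ⟨h1, a, ha, h2, h3⟩

private theorem reg_pre {a s : List ℕ} {u : ℕ} (h : a ++ [u] <+: s) : a <+: s :=
  (List.prefix_append a [u]).trans h

private theorem reg_pre_snoc {a s : List ℕ} {k : ℕ} (h : a <+: s ++ [k]) : a = s ++ [k] ∨ a <+: s :=
  List.prefix_concat_iff.1 h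

/-- the children of the kept node in its region -/
theorem child_mem_reg (ha : Kp T r a) {n u : ℕ} (hu : Suc T a n u) : a ++ [u] ∈ Rg T m r ↔ m ≤ wt (n :: r) := by
  rw [mem_reg ha]
  constructor
  · rintro ⟨-, -, h⟩
    by_contra hlt
    exact h n (not_le.1 hlt) u hu (List.prefix_refl _)
  · intro h
    refine ⟨hu.mem, Or.inr (List.prefix_append a [u]), fun n' hn' u' hu' hp => ?_⟩
    have h1 : a ++ [u'] = a ++ [u] := hp.eq_of_length (by simp)
    have h2 : u' = u := by simpa using h1
    subst h2
    have h3 := hu.inj hu'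
    subst h3
    omega

private theorem reg_up (ha : Kp T r a) {t : List ℕ} (hs : s ∈ Rg T m r) (has : a <+: s) (hne : s ≠ a)
    (hst : s <+: t) (ht : t ∈ T) : t ∈ Rg T m r := by
  rw [mem_reg ha] at hs ⊢
  refine ⟨ht, Or.inr (has.trans hst), fun n hn u hu hp => ?_⟩
  refine hs.2.2 n hn u hu ?_
  have hlen : a.length < s.length := by
    rcases Nat.lt_or_ge a.length s.length with h | h
    · exact h
    · exact absurd (has.eq_of_length_le h).symm hne
  rcases prefix_or hst hp with h | h
  · have h1 : s.length ≤ (a ++ [u]).length := h.length_le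
    have h2 : s = a ++ [u] := h.eq_of_length (by simp at h1 ⊢; omega)
    rw [h2]
  · exact h

private theorem reg_isTree (h : TC md T) (ha : Kp T r a) : IsTree (Rg T m r) := by
  intro s k hs
  rw [mem_reg ha] at hs ⊢
  obtain ⟨h1, h2, h3⟩ := hs
  refine ⟨h.isTree s k h1, ?_, fun n hn u hu hp => h3 n hn u hu (hp.trans (List.prefix_append s [k]))⟩
  rcases h2 with h2 | h2
  · exact Or.inl ((List.prefix_append s [k]).trans h2)
  · rcases reg_pre_snoc h2 with h4 | h4
    · exact Or.inl (h4 ▸ List.prefix_append s [k])
    · exact Or.inr h4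

private theorem reg_split (ha : Kp T r a) : Split (Rg T m r) a := by
  constructor
  · rw [mem_reg ha]
    refine ⟨ha.mem, Or.inl (List.prefix_refl a), fun n _ u _ hp => ?_⟩
    have := hp.length_le
    simp at this
  · intro k
    obtain ⟨u, hu⟩ := exists_suc ha.split (max k m)
    refine ⟨u, le_trans (le_max_left k m) hu.le, ?_⟩
    rw [child_mem_reg ha hu, wt_cons]
    have := le_max_right k m
    omega

private theorem reg_split_up (ha : Kp T r a) (hs : s ∈ Rg T m r) (has : a <+: s) (hne : s ≠ a)
    (h : Split T s) : Split (Rg T m r) s := by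
  refine ⟨hs, fun k => ?_⟩
  obtain ⟨n, hn, h1⟩ := h.2 k
  exact ⟨n, hn, reg_up ha hs has hne (List.prefix_append s [n]) h1⟩

theorem reg_st (h : TC md T) (hn : Nm T) (ha : Kp T r a) : St (Rg T m r) a :=
  ⟨reg_split ha, fun _ hs => ((mem_reg ha).1 hs).2.1⟩

theorem reg_tc (h : TC md T) (hn : Nm T) (ha : Kp T r a) : TC md (Rg T m r) := by
  have hst : St (Rg T m r) a := reg_st h hn ha
  cases md with
  | laver =>
    have hL : Laver T := h
    refine laver_of_st (reg_isTree h ha) hst fun s hs has => ?_
    by_cases hne : s = a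
    · rw [hne]; exact hst.1
    · obtain ⟨b, hb, hb'⟩ := hL.exists_st
      have hba : b <+: a := Kp.prefix_of_suffix (kp_nil.2 hb) ha (List.nil_suffix)
      exact reg_split_up ha hs has hne (hb' s (reg_subset _ _ _ hs) (hba.trans has))
  | miller =>
    have hM : Miller T := h
    refine ⟨reg_isTree h ha, ?_, fun s hs => ?_⟩
    · rw [mem_reg ha]
      refine ⟨hM.2.1, Or.inl (List.nil_prefix), fun n _ u _ hp => ?_⟩
      have := hp.length_le
      simp at this
    · rcases ((mem_reg ha).1 hs).2.1 with h1 | h1
      · exact ⟨a, h1, hst.1⟩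
      · by_cases hne : s = a
        · exact ⟨a, by rw [hne], hst.1⟩
        · obtain ⟨t, ht, ht'⟩ := hM.2.2 s (reg_subset _ _ _ hs)
          refine ⟨t, ht, reg_split_up ha (reg_up ha hs h1 hne ht ht'.1) (h1.trans ht) ?_ ht'⟩
          rintro rfl
          exact hne (ht.eq_of_length_le h1.length_le)

theorem reg_nm (h : TC md T) (hn : Nm T) (ha : Kp T r a) : Nm (Rg T m r) := by
  have hst : St (Rg T m r) a := reg_st h hn ha
  intro s hs
  by_cases hne : s = a
  · rw [hne]; exact Or.inl hst.1
  · rcases ((mem_reg ha).1 hs).2.1 with h1 | h1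
    · right
      intro n n' hn1 hn2
      have key : ∀ k, s ++ [k] ∈ Rg T m r → s ++ [k] <+: a := by
        intro k hk
        rcases ((mem_reg ha).1 hk).2.1 with h2 | h2
        · exact h2
        · rcases reg_pre_snoc h2 with h3 | h3
          · rw [h3]
          · exact absurd (h1.eq_of_length_le h3.length_le) hne
      have h3 := key n hn1
      have h4 := key n' hn2
      rcases prefix_or h3 h4 with h5 | h5
      · have := h5.eq_of_length (by simp)
        simpa using this
      · have := h5.eq_of_length (by simp)
        exact (by simpa using this : n' = n).symm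
    · rcases hn s (reg_subset _ _ _ hs) with h2 | h2
      · exact Or.inl (reg_split_up ha hs h1 hne h2)
      · exact Or.inr fun n n' h3 h4 => h2 n n' (reg_subset _ _ _ h3) (reg_subset _ _ _ h4)

end Pool.Agent.Lib.MP_011f3a_lc.LM

/-! # Coding a real by the digits of a branch (module B-CODE)

`Pty y r`: the parities of the digits of the index `r` (first digit = last entry of the list) are given by `y`. `Cd T y` is the tree of the
initial segments of the kept nodes of `T` whose index has parities `y`. Its kept nodes are kept nodes of `T`; the children of a kept node `a` of `T`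
of index `r` with `Pty y r` which belong to `Cd T y` are those with numbers of the right parity. -/

namespace Pool.Agent.Lib.MP_011f3a_lc.LM

variable {md : Md} {T : Set (List ℕ)} {y : Set ℕ} {r r' a a' s : List ℕ}

/-- the parities of the digits of `r` are given by `y` -/
def Pty (y : Set ℕ) : List ℕ → Prop
  | [] => True
  | n :: r => Pty y r ∧ (n % 2 = 1 ↔ r.length ∈ y)

/-- the parities of the digits, first digit first -/
def bits (r : List ℕ) : List Bool := (r.map fun n => decide (n % 2 = 1)).reverse

/-- the subtree coding `y` -/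
def Cd (T : Set (List ℕ)) (y : Set ℕ) : Set (List ℕ) := {s | ∃ r a, Kp T r a ∧ Pty y r ∧ s <+: a}

/-- `σ` is an initial segment of the characteristic function of `x` -/
def Ini (σ : List Bool) (x : Set ℕ) : Prop := ∀ i (h : i < σ.length), σ[i] = true ↔ i ∈ x

theorem Pty.suffix (h : Pty y r') (hr : r <:+ r') : Pty y r := by
  induction r' with
  | nil => exact List.eq_nil_of_suffix_nil hr ▸ trivial
  | cons n r' ih =>
    rcases List.suffix_cons_iff.1 hr with h1 | h1
    · exact h1 ▸ h
    · exact ih h.1 h1

theorem length_bits (r : List ℕ) : (bits r).length = r.length := by simp [bits]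

private theorem code_ini_append (σ : List Bool) (b : Bool) (x : Set ℕ) :
    Ini (σ ++ [b]) x ↔ Ini σ x ∧ (b = true ↔ σ.length ∈ x) := by
  constructor
  · intro h
    refine ⟨fun i hi => ?_, ?_⟩
    · have := h i (by simp; omega)
      rwa [List.getElem_append_left hi] at this
    · have := h σ.length (by simp)
      simpa using this
  · rintro ⟨h1, h2⟩ i hi
    rcases Nat.lt_or_ge i σ.length with h3 | h3
    · rw [List.getElem_append_left h3]
      exact h1 i h3
    · have h4 : i = σ.length := by
        simp at hi
        omega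
      subst h4
      simpa using h2

theorem pty_iff : Pty y r ↔ Ini (bits r) y := by
  induction r with
  | nil => exact ⟨fun _ i hi => absurd hi (by simp [bits]), fun _ => trivial⟩
  | cons n r ih =>
    have h1 : bits (n :: r) = bits r ++ [decide (n % 2 = 1)] := by simp [bits]
    rw [h1, code_ini_append, ← ih, length_bits]
    simp [Pty]

theorem cd_subset (h : TC md T) : Cd T y ⊆ T := by
  rintro s ⟨r, a, ha, _, hs⟩
  exact h.isTree.of_prefix hs ha.mem

private theorem code_split (h : TC md T) (hn : Nm T) (ha : Kp T r a) (hr : Pty y r) : Split (Cd T y) a := by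
  refine ⟨⟨r, a, ha, hr, List.prefix_refl _⟩, fun m => ?_⟩
  have key : ∃ N, m ≤ N ∧ (N % 2 = 1 ↔ r.length ∈ y) := by
    by_cases h1 : r.length ∈ y
    · exact ⟨2 * m + 1, by omega, ⟨fun _ => h1, fun _ => by omega⟩⟩
    · exact ⟨2 * m, by omega, ⟨fun h2 => by omega, fun h2 => absurd h2 h1⟩⟩
  obtain ⟨N, hN, hN'⟩ := key
  obtain ⟨u, hu⟩ := exists_suc ha.split N
  obtain ⟨a', ha', h1, _⟩ := Kp.exists_cons h hn ha hu
  exact ⟨u, hN.trans hu.le, ⟨N :: r, a', ha', ⟨hr, hN'⟩, h1⟩⟩

private theorem code_isTree : IsTree (Cd T y) := by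
  rintro s n ⟨r, a, ha, hr, hs⟩
  exact ⟨r, a, ha, hr, (List.prefix_append _ _).trans hs⟩

private theorem code_laver_kp (h : Laver T) {a₀ : List ℕ} (ha₀ : St T a₀) {s : List ℕ} (hs : s ∈ T) (h1 : a₀ <+: s) :
    ∃ r, Kp T r s := by
  induction s using List.reverseRecOn with
  | nil =>
    have h2 : a₀ = [] := by simpa using h1
    subst h2
    exact ⟨[], ha₀⟩
  | append_singleton s u ih =>
    by_cases he : a₀ = s ++ [u]
    · exact ⟨[], he ▸ ha₀⟩
    · have h2 : a₀ <+: s := by
        rcases prefix_or h1 (List.prefix_append s [u]) with h3 | h3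
        · exact h3
        · have h4 := h1.length_le
          have h5 := h3.length_le
          simp at h4
          rcases Nat.lt_or_ge a₀.length (s.length + 1) with h6 | h6
          · exact (h3.eq_of_length (by omega)) ▸ List.prefix_refl _
          · exact absurd (h1.eq_of_length (by simp; omega)) he
      obtain ⟨r, hr⟩ := ih (h.1 s u hs) h2
      obtain ⟨n, hn⟩ := exists_index hs
      exact ⟨n :: r, h.kp_cons hr hn⟩

theorem cd_tc (h : TC md T) (hn : Nm T) (y : Set ℕ) : TC md (Cd T y) := by
  obtain ⟨a₀, ha₀⟩ := exists_St h hn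
  have hk₀ : Kp T [] a₀ := ha₀
  cases md with
  | laver =>
    refine laver_of_st (a := a₀) code_isTree ⟨code_split h hn hk₀ trivial, fun s hs => ha₀.2 s (cd_subset h hs)⟩ ?_
    rintro s ⟨r, a, ha, hr, hsa⟩ h1
    obtain ⟨r', hr'⟩ := code_laver_kp h ha₀ (h.isTree.of_prefix hsa ha.mem) h1
    exact code_split h hn hr' (hr.suffix (hr'.suffix_of_prefix ha hsa))
  | miller =>
    refine ⟨code_isTree, ⟨[], a₀, hk₀, trivial, List.nil_prefix⟩, ?_⟩
    rintro s ⟨r, a, ha, hr, hsa⟩
    exact ⟨a, hsa, code_split h hn ha hr⟩

/-- a kept node of `T` which belongs to `Cd T y` has an index with parities `y` -/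
theorem pty_of_mem (h : TC md T) (hn : Nm T) (ha : Kp T r a) (hm : a ∈ Cd T y) : Pty y r := by
  obtain ⟨r', a', ha', hr', hs⟩ := hm
  exact hr'.suffix (ha.suffix_of_prefix ha' hs)

/-- a branch of `T` passes through kept nodes with arbitrarily long indices -/
theorem exists_kp_branch (h : TC md T) (hn : Nm T) {g : Set (List ℕ)} (hg : Branch g) (hs : g ⊆ T) (n : ℕ) :
    ∃ r a, r.length = n ∧ Kp T r a ∧ a ∈ g := by
  induction n with
  | zero =>
    obtain ⟨a₀, ha₀⟩ := exists_St h hn
    exact ⟨[], a₀, rfl, ha₀, hg.mem_of_sub fun t ht => ha₀.2 t (hs ht)⟩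
  | succ n ih =>
    obtain ⟨r, a, hr, ha, hag⟩ := ih
    obtain ⟨s, hsg, hsl⟩ := hg.1 (a.length + 1)
    have h1 : a <+: s := hg.2 a hag s hsg (by omega)
    have h2 : s ≠ a := by
      rintro rfl
      omega
    obtain ⟨m, u, hu, hus⟩ := exists_child h.isTree h1 h2 (hs hsg)
    obtain ⟨a', ha', h3, h4⟩ := Kp.exists_cons h hn ha hu
    have h5 : a ++ [u] ∈ g := hg.of_prefix hus hsg
    refine ⟨m :: r, a', by simp [hr], ha', hg.mem_of_sub fun t ht => h4.2 t ⟨hs ht, hg.compar ht h5⟩⟩

end Pool.Agent.Lib.MP_011f3a_lc.LM
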