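import Pool.Agent.Lib.MP_011f3a_lc.LM.B.St

/-! # Trees generated by a sequence of nodes (module B-NODE)

The node `a (i + 1)` lies above the child `a (p i) ++ [u i]` of its parent `a (p i)`, `p i ≤ i`. The same parent occurs infinitely often with
increasing numbers `u i`. `T_ω = {s | ∃ j, s <+: a j}`. The ancestors of a node `j` are `j`, its parent, ..., `0`; if `a j <+: a j'` then `j` is an
ancestor of `j'` (otherwise compare the last common ancestor: different children). -/

namespace Pool.Agent.Lib.MP_011f3a_lc.LM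

variable {md : Md}

/-- the hypotheses on the nodes -/
structure NoH (md : Md) (a : ℕ → List ℕ) (p u : ℕ → ℕ) : Prop where
  le : ∀ i, p i ≤ i
  inf : ∀ j N, ∃ i ≥ N, p i = j
  above : ∀ i, a (p i) ++ [u i] <+: a (i + 1)
  mono : ∀ i i', i < i' → p i = p i' → u i < u i'
  lav : md = Md.laver → ∀ i, a (i + 1) = a (p i) ++ [u i]

/-- the closure of the set of nodes -/
def Cl (a : ℕ → List ℕ) : Set (List ℕ) := {s | ∃ j, s <+: a j}

variable {a : ℕ → List ℕ} {p u : ℕ → ℕ}

/-- `j` is an ancestor of `j'` -/
def NodeAnc (p : ℕ → ℕ) : ℕ → ℕ → Prop := Relation.ReflTransGen fun x y => ∃ i, y = i + 1 ∧ p i = x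

theorem NoH.anc_step (i : ℕ) {j : ℕ} (h : NodeAnc p j (p i)) : NodeAnc p j (i + 1) :=
  Relation.ReflTransGen.tail h ⟨i, rfl, rfl⟩

theorem NoH.anc_head {j j' : ℕ} (h : NodeAnc p j j') (hne : j ≠ j') : ∃ i, p i = j ∧ NodeAnc p (i + 1) j' := by
  rcases Relation.ReflTransGen.cases_head h with h1 | ⟨c, ⟨i, rfl, hi⟩, hc⟩
  · exact absurd h1 hne
  · exact ⟨i, hi, hc⟩

theorem NoH.anc_le (h : NoH md a p u) {j j' : ℕ} (hj : NodeAnc p j j') : j ≤ j' := by
  induction hj with
  | refl => exact le_rfl
  | tail _ hs ih =>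
    obtain ⟨i, rfl, hi⟩ := hs
    have := h.le i
    omega

theorem NoH.anc_zero (h : NoH md a p u) (j : ℕ) : NodeAnc p 0 j := by
  induction j using Nat.strong_induction_on with
  | _ j ih =>
    cases j with
    | zero => exact Relation.ReflTransGen.refl
    | succ i => exact NoH.anc_step i (ih (p i) (Nat.lt_succ_of_le (h.le i)))

theorem NoH.anc_prefix (h : NoH md a p u) {j j' : ℕ} (hj : NodeAnc p j j') : a j <+: a j' := by
  induction hj with
  | refl => exact List.prefix_refl _
  | tail _ hs ih =>
    obtain ⟨i, rfl, rfl⟩ := hs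
    exact ih.trans ((List.prefix_append _ _).trans (h.above i))

theorem NoH.child_prefix (h : NoH md a p u) {i j : ℕ} (hj : NodeAnc p (i + 1) j) : a (p i) ++ [u i] <+: a j :=
  (h.above i).trans (h.anc_prefix hj)

theorem NoH.u_inj (h : NoH md a p u) {i i' : ℕ} (hp : p i = p i') (hu : u i = u i') : i = i' := by
  rcases lt_trichotomy i i' with h1 | h1 | h1
  · have := h.mono i i' h1 hp
    omega
  · exact h1
  · have := h.mono i' i h1 hp.symm
    omega

/-- two nodes are comparable or they are separated at a common ancestor -/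
theorem NoH.anc_cases (h : NoH md a p u) (N : ℕ) : ∀ j ≤ N, ∀ j' ≤ N, NodeAnc p j j' ∨ NodeAnc p j' j ∨
    ∃ i i', i ≠ i' ∧ p i = p i' ∧ NodeAnc p (i + 1) j ∧ NodeAnc p (i' + 1) j' := by
  induction N with
  | zero =>
    intro j hj j' hj'
    have h1 : j = 0 := by omega
    subst h1
    exact Or.inl (h.anc_zero j')
  | succ N ih =>
    -- the case of `j ≤ N` and `N + 1`
    have key : ∀ j ≤ N, NodeAnc p j (N + 1) ∨
        ∃ i i', i ≠ i' ∧ p i = p i' ∧ NodeAnc p (i + 1) j ∧ NodeAnc p (i' + 1) (N + 1) := by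
      intro j hj
      rcases ih j hj (p N) (h.le N) with h1 | h1 | ⟨i, i', h1, h2, h3, h4⟩
      · exact Or.inl (NoH.anc_step N h1)
      · by_cases he : p N = j
        · subst he
          exact Or.inl (NoH.anc_step N Relation.ReflTransGen.refl)
        · obtain ⟨i, hi, hi'⟩ := NoH.anc_head h1 he
          refine Or.inr ⟨i, N, ?_, hi, hi', Relation.ReflTransGen.refl⟩
          have := h.anc_le hi'
          omega
      · exact Or.inr ⟨i, i', h1, h2, h3, NoH.anc_step N h4⟩
    intro j hj j' hj'
    rcases Nat.lt_or_ge j (N + 1) with h1 | h1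
    · rcases Nat.lt_or_ge j' (N + 1) with h2 | h2
      · exact ih j (by omega) j' (by omega)
      · have h3 : j' = N + 1 := by omega
        subst h3
        rcases key j (by omega) with h4 | h4
        · exact Or.inl h4
        · exact Or.inr (Or.inr h4)
    · have h3 : j = N + 1 := by omega
      subst h3
      rcases Nat.lt_or_ge j' (N + 1) with h2 | h2
      · rcases key j' (by omega) with h4 | ⟨i, i', h4, h5, h6, h7⟩
        · exact Or.inr (Or.inl h4)
        · exact Or.inr (Or.inr ⟨i', i, h4.symm, h5.symm, h7, h6⟩)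
      · have h4 : j' = N + 1 := by omega
        subst h4
        exact Or.inl Relation.ReflTransGen.refl

/-- two children of `b` with a common extension are equal -/
theorem NoH.child_eq {b x : List ℕ} {v v' : ℕ} (h : b ++ [v] <+: x) (h' : b ++ [v'] <+: x) : v = v' := by
  have e : b ++ [v] = b ++ [v'] := by
    rcases prefix_or h h' with h3 | h3
    · exact h3.eq_of_length (by simp)
    · exact (h3.eq_of_length (by simp)).symm
  simpa using e

/-- separated nodes have no common extension -/
theorem NoH.sep (h : NoH md a p u) {i i' j j' : ℕ} (hi : i ≠ i') (hp : p i = p i') (hj : NodeAnc p (i + 1) j)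
    (hj' : NodeAnc p (i' + 1) j') {x : List ℕ} (hx : a j <+: x) (hx' : a j' <+: x) : False := by
  have h1 := (h.child_prefix hj).trans hx
  have h2 := (h.child_prefix hj').trans hx'
  rw [← hp] at h2
  exact hi (h.u_inj hp (NoH.child_eq h1 h2))

theorem NoH.anc_of_prefix (h : NoH md a p u) {j j' : ℕ} (hj : a j <+: a j') : NodeAnc p j j' := by
  rcases h.anc_cases (max j j') j (le_max_left _ _) j' (le_max_right _ _) with h1 | h1 | ⟨i, i', h1, h2, h3, h4⟩
  · exact h1
  · by_cases he : j' = j
    · subst he
      exact Relation.ReflTransGen.refl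
    · exfalso
      obtain ⟨i, hi, hi'⟩ := NoH.anc_head h1 he
      have h2 := (h.child_prefix hi').length_le
      have h3 := hj.length_le
      rw [hi] at h2
      simp at h2
      omega
  · exact (h.sep h1 h2 h3 h4 hj (List.prefix_refl _)).elim

theorem NoH.isTree_cl : IsTree (Cl a) := by
  rintro s n ⟨j, hj⟩
  exact ⟨j, (List.prefix_append _ _).trans hj⟩

theorem NoH.mem_cl (j : ℕ) : a j ∈ Cl a := ⟨j, List.prefix_refl _⟩

theorem NoH.split_cl (h : NoH md a p u) (j : ℕ) : Split (Cl a) (a j) := by
  have key : ∀ m, ∃ i, p i = j ∧ m ≤ u i := by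
    intro m
    induction m with
    | zero =>
      obtain ⟨i, _, hi⟩ := h.inf j 0
      exact ⟨i, hi, Nat.zero_le _⟩
    | succ m ih =>
      obtain ⟨i, hi, hm⟩ := ih
      obtain ⟨i', hi', hp⟩ := h.inf j (i + 1)
      have := h.mono i i' (by omega) (hi.trans hp.symm)
      exact ⟨i', hp, by omega⟩
  refine ⟨NoH.mem_cl j, fun m => ?_⟩
  obtain ⟨i, hi, hm⟩ := key m
  refine ⟨u i, hm, i + 1, ?_⟩
  rw [← hi]
  exact h.above i

theorem NoH.st (h : NoH md a p u) : St (Cl a) (a 0) := by
  refine ⟨h.split_cl 0, ?_⟩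
  rintro s ⟨j, hj⟩
  exact prefix_or hj (h.anc_prefix (h.anc_zero j))

theorem NoH.tc (h : NoH md a p u) : TC md (Cl a) := by
  cases md with
  | laver =>
    refine laver_of_st NoH.isTree_cl h.st ?_
    have key : ∀ j s, s <+: a j → a 0 <+: s → ∃ j', s = a j' := by
      intro j
      induction j using Nat.strong_induction_on with
      | _ j ih =>
        intro s hs h0
        cases j with
        | zero =>
          exact ⟨0, hs.eq_of_length_le h0.length_le⟩
        | succ i =>
          by_cases he : s = a (i + 1)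
          · exact ⟨_, he⟩
          · rw [h.lav rfl i] at hs he
            have h1 : s <+: a (p i) := by
              rcases prefix_or hs (List.prefix_append (a (p i)) [u i]) with h2 | h2
              · exact h2
              · rcases Nat.lt_or_ge (a (p i)).length s.length with h3 | h3
                · exact absurd (hs.eq_of_length_le (by simp; omega)) he
                · exact (h2.eq_of_length_le h3) ▸ List.prefix_refl _
            exact ih (p i) (Nat.lt_succ_of_le (h.le i)) s h1 h0
    rintro s ⟨j, hj⟩ h0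
    obtain ⟨j', rfl⟩ := key j s hj h0
    exact h.split_cl j'
  | miller =>
    refine ⟨NoH.isTree_cl, ⟨0, List.nil_prefix⟩, ?_⟩
    rintro s ⟨j, hj⟩
    exact ⟨a j, hj, h.split_cl j⟩

theorem NoH.inj (h : NoH md a p u) {j j' : ℕ} (hj : a j = a j') : j = j' := by
  have h1 := h.anc_le (h.anc_of_prefix (hj ▸ List.prefix_refl _ : a j <+: a j'))
  have h2 := h.anc_le (h.anc_of_prefix (hj ▸ List.prefix_refl _ : a j' <+: a j))
  omega

/-- the part of the tree above the node `a j` is contained in `R j` -/
theorem NoH.sub (h : NoH md a p u) (R : ℕ → Set (List ℕ)) (hR : ∀ j, IsTree (R j)) (ha : ∀ j, a j ∈ R j)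
    (hs : ∀ i, R (i + 1) ⊆ R (p i)) (j : ℕ) : Cl a ∩ abv Set.univ (a j) ⊆ R j := by
  have key : ∀ j j', NodeAnc p j j' → R j' ⊆ R j := by
    intro j j' hj
    induction hj with
    | refl => exact subset_rfl
    | tail _ hs' ih =>
      obtain ⟨i, rfl, rfl⟩ := hs'
      exact (hs i).trans ih
  rintro x ⟨⟨j', hj'⟩, -, hx⟩
  rcases hx with h1 | h1
  · exact (hR j).of_prefix h1 (ha j)
  · exact key j j' (h.anc_of_prefix (h1.trans hj')) ((hR j').of_prefix hj' (ha j'))

end Pool.Agent.Lib.MP_011f3a_lc.LM

/-! # Trees generated by a sequence of nodes, part 2 (module B-NODEB)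

See the header of B/Node.lean. `NoH.exists_node`: a splitting node of `T` is a splitting node of `Cl a`, hence some `a j` (every other node of `Cl a` has exactly one child in `Cl a`), and `T` has infinitely many splitting nodes.
`NoH.next`: `g` passes through a child `a κ ++ [v]` of `a κ`, it is an initial segment of some `a j`, `j` a descendant of `κ`, so `v = u i`, `p i = κ` for some `i`, and all nodes of `Cl a` above this child are comparable with `a (i + 1)`. -/

namespace Pool.Agent.Lib.MP_011f3a_lc.LM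

variable {md : Md}

variable {a : ℕ → List ℕ} {p u : ℕ → ℕ}

/-- a common initial segment of separated nodes is an initial segment of the node where they separate -/
private theorem nodeB_common (h : NoH md a p u) {i i' j j' : ℕ} (hi : i ≠ i') (hp : p i = p i')
    (hj : NodeAnc p (i + 1) j) (hj' : NodeAnc p (i' + 1) j') {s : List ℕ} (hs : s <+: a j) (hs' : s <+: a j') :
    s <+: a (p i) := by
  have h1 := h.child_prefix hj
  have h2 := h.child_prefix hj'
  rw [← hp] at h2
  rcases prefix_or hs h1 with h3 | h3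
  · rcases prefix_or h3 (List.prefix_append (a (p i)) [u i]) with h4 | h4
    · exact h4
    · rcases Nat.lt_or_ge (a (p i)).length s.length with h5 | h5
      · have h6 : s = a (p i) ++ [u i] := h3.eq_of_length_le (by simp; omega)
        exact absurd (h.u_inj hp (NoH.child_eq (h6 ▸ hs') h2)) hi
      · exact (h4.eq_of_length_le h5) ▸ List.prefix_refl _
  · exact absurd (h.u_inj hp (NoH.child_eq (h3.trans hs') h2)) hi

private theorem nodeB_split (h : NoH md a p u) {s : List ℕ} (hs : Split (Cl a) s) : ∃ j, s = a j := by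
  classical
  have hex : ∃ j, s <+: a j := hs.1
  set j := Nat.find hex with hj
  have hsj : s <+: a j := Nat.find_spec hex
  have hmin : ∀ j', s <+: a j' → j ≤ j' := fun j' h' => Nat.find_min' hex h'
  have hanc : ∀ j', s <+: a j' → a j <+: a j' := by
    intro j' h'
    rcases h.anc_cases (max j j') j (le_max_left _ _) j' (le_max_right _ _) with h1 | h1 | ⟨i, i', h1, h2, h3, h4⟩
    · exact h.anc_prefix h1
    · have h2 := h.anc_le h1
      have h3 := hmin j' h'
      have h4 : j' = j := by omega
      rw [h4]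
    · exfalso
      have h5 := hmin _ (nodeB_common h h1 h2 h3 h4 hsj h')
      have h6 := h.le i
      have h7 := h.anc_le h3
      omega
  by_contra hne
  push Not at hne
  have hlt : s.length < (a j).length := by
    rcases Nat.lt_or_ge s.length (a j).length with h1 | h1
    · exact h1
    · exact absurd (hsj.eq_of_length_le h1) (hne j)
  have hch : ∀ n, s ++ [n] ∈ Cl a → s ++ [n] <+: a j := by
    rintro n ⟨j', hj'⟩
    have h1 := hanc j' ((List.prefix_append _ _).trans hj')
    rcases prefix_or hj' h1 with h2 | h2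
    · exact h2
    · have := h2.length_le
      simp at this
      exact (h2.eq_of_length (by simp; omega)) ▸ List.prefix_refl _
  obtain ⟨n, _, hn⟩ := hs.2 0
  obtain ⟨n', hn', hn''⟩ := hs.2 (n + 1)
  have := NoH.child_eq (hch n hn) (hch n' hn'')
  omega

/-- a condition `T ⊆ T_ω` contains a node `a j` with `j ≥ N` -/
theorem NoH.exists_node (h : NoH md a p u) {T : Set (List ℕ)} (hT : TC md T) (hs : T ⊆ Cl a) (N : ℕ) :
    ∃ j ≥ N, a j ∈ T := by
  obtain ⟨t, ht, -, hlen⟩ := hT.exists_long hT.nil_mem ((Finset.range N).sup (fun j => (a j).length) + 1)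
  obtain ⟨t', htt', hsp⟩ := hT.exists_split ht
  obtain ⟨j, rfl⟩ := nodeB_split h (hsp.mono hs)
  refine ⟨j, ?_, hsp.1⟩
  by_contra hlt
  have h1 : (a j).length ≤ (Finset.range N).sup (fun j => (a j).length) :=
    Finset.le_sup (f := fun j => (a j).length) (Finset.mem_range.2 (by omega))
  have h2 := htt'.length_le
  omega

/-- the next node on a branch after the node `κ = a j`, `j` the last node `≤ i` on the branch -/
theorem NoH.next (h : NoH md a p u) {g : Set (List ℕ)} (hg : Branch g) (hs : g ⊆ Cl a) {i κ : ℕ} (hκ : κ ≤ i)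
    (hm : a κ ∈ g) (hl : ∀ j, κ < j → j ≤ i → a j ∉ g) : ∃ i' ≥ i, p i' = κ ∧ a (i' + 1) ∈ g := by
  obtain ⟨t, ht, hlen⟩ := hg.1 ((a κ).length + 1)
  obtain ⟨j, hj⟩ := hs ht
  have h1 : a κ <+: t := hg.2 _ hm _ ht (by omega)
  have h2 := h.anc_of_prefix (h1.trans hj)
  have h3 : κ ≠ j := by
    rintro rfl
    have := hj.length_le
    omega
  obtain ⟨i', hi', hanc⟩ := NoH.anc_head h2 h3
  have h4 := h.child_prefix hanc
  rw [hi'] at h4
  have h5 : t = a κ ++ [u i'] := by
    rcases prefix_or hj h4 with h6 | h6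
    · exact h6.eq_of_length (by simp [hlen])
    · exact (h6.eq_of_length (by simp [hlen])).symm
  have hmem : a (i' + 1) ∈ g := by
    obtain ⟨x, hx, hxl⟩ := hg.1 (a (i' + 1)).length
    obtain ⟨j2, hj2⟩ := hs hx
    have h6 : (a κ ++ [u i']).length ≤ (a (i' + 1)).length := by
      have := (h.above i').length_le
      rwa [hi'] at this
    have h7 : t <+: x := hg.2 _ ht _ hx (by rw [h5, hxl]; exact h6)
    have h8 : a κ ++ [u i'] <+: a j2 := (h5 ▸ h7).trans hj2
    have h9 := h.anc_of_prefix ((List.prefix_append _ _).trans h8)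
    have h10 : κ ≠ j2 := by
      rintro rfl
      have := h8.length_le
      simp at this
    obtain ⟨i2, hi2, hanc2⟩ := NoH.anc_head h9 h10
    have h11 := h.child_prefix hanc2
    rw [hi2] at h11
    have h12 : i' = i2 := h.u_inj (hi'.trans hi2.symm) (NoH.child_eq h8 h11)
    subst h12
    have h13 := h.anc_prefix hanc2
    have h14 : x = a (i' + 1) := by
      rcases prefix_or hj2 h13 with h15 | h15
      · exact h15.eq_of_length hxl
      · exact (h15.eq_of_length hxl.symm).symm
    exact h14 ▸ hx
  refine ⟨i', ?_, hi', hmem⟩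
  by_contra hlt
  have := h.le i'
  exact hl (i' + 1) (by omega) (by omega) hmem

theorem NoH.zero_mem (h : NoH md a p u) {g : Set (List ℕ)} (hg : Branch g) (hs : g ⊆ Cl a) : a 0 ∈ g :=
  hg.mem_of_sub fun t ht => h.st.2 t (hs ht)

/-- every node on a branch has its parent on the branch -/
theorem NoH.parent_mem (h : NoH md a p u) {g : Set (List ℕ)} (hg : Branch g) (hs : g ⊆ Cl a) {i : ℕ}
    (hi : a (i + 1) ∈ g) : a (p i) ∈ g :=
  hg.of_prefix ((List.prefix_append _ _).trans (h.above i)) hi

/-- the nodes on a branch form a path -/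
theorem NoH.path (h : NoH md a p u) {g : Set (List ℕ)} (hg : Branch g) (hs : g ⊆ Cl a) :
    ∃ J : ℕ → ℕ, J 0 = 0 ∧ StrictMono J ∧ (∀ t, a (J t) ∈ g) ∧ (∀ j, a j ∈ g → ∃ t, j = J t) ∧
      ∀ t, ∃ i, J (t + 1) = i + 1 ∧ p i = J t := by
  have hnx : ∀ κ : {j // a j ∈ g}, ∃ i', p i' = κ.1 ∧ a (i' + 1) ∈ g := by
    rintro ⟨κ, hκ⟩
    obtain ⟨i', _, h1, h2⟩ := h.next hg hs (le_refl κ) hκ (fun j h1 h2 => absurd h1 (by omega))
    exact ⟨i', h1, h2⟩
  choose f hf1 hf2 using hnx
  let K : ℕ → {j // a j ∈ g} := fun t => Nat.rec ⟨0, h.zero_mem hg hs⟩ (fun _ κ => ⟨f κ + 1, hf2 κ⟩) t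
  have hK : ∀ t, (K (t + 1)).1 = f (K t) + 1 := fun t => rfl
  refine ⟨fun t => (K t).1, rfl, ?_, fun t => (K t).2, ?_, fun t => ⟨f (K t), hK t, hf1 _⟩⟩
  · refine strictMono_nat_of_lt_succ fun t => ?_
    show (K t).1 < (K (t + 1)).1
    rw [hK t]
    have h1 := hf1 (K t)
    have h2 := h.le (f (K t))
    omega
  · intro j
    induction j using Nat.strong_induction_on with
    | _ j ih =>
      intro hj
      cases j with
      | zero => exact ⟨0, rfl⟩
      | succ i =>
        obtain ⟨t, ht⟩ := ih (p i) (Nat.lt_succ_of_le (h.le i)) (h.parent_mem hg hs hj)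
        refine ⟨t + 1, ?_⟩
        show i + 1 = (K (t + 1)).1
        rw [hK t]
        have h1 := hf1 (K t)
        have h2 := hf2 (K t)
        have h3 : p (f (K t)) = p i := by rw [h1]; exact ht.symm
        have h4 : u (f (K t)) = u i := by
          rcases hg.compar h2 hj with h5 | h5
          · have h6 := (h.above (f (K t))).trans h5
            rw [h3] at h6
            exact NoH.child_eq h6 (h.above i)
          · have h6 := (h.above i).trans h5
            have h7 := h.above (f (K t))
            rw [h3] at h7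
            exact NoH.child_eq h7 h6
        have := h.u_inj h3 h4
        omega

end Pool.Agent.Lib.MP_011f3a_lc.LM
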