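import Pool.Agent.Lib.MP_011f3a_lc.LM.B.St

/-! # Normalization (module B-NORM)

`Spl T s t`: `t` is the splitting node above `s` with the least code. `Nd T k a`: `a` is a chosen node of level `k`: the chosen
splitting node above `[]`, or above a child of a chosen node of level `k - 1`. `nrm T` consists of the initial segments of the chosen
nodes (or is `T` if `T` is normal). `nrm_nm`: let `s ∈ nrm T`; if `s` is a chosen node it is a splitting node of `nrm T`; otherwise take a
chosen node `a` of minimal level with `s <+: a`: every chosen node which properly extends `s` extends `a` (two chosen nodes above `s`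
with different branches would be above different children of a common chosen node, which is then an initial segment of `s`,
and both are above the same chosen `Spl` node). -/

namespace Pool.Agent.Lib.MP_011f3a_lc.LM

variable {md : Md} {T : Set (List ℕ)}

/-- `t` is the splitting node above `s` with the least code -/
def Spl (T : Set (List ℕ)) (s t : List ℕ) : Prop :=
  (s <+: t ∧ Split T t) ∧ ∀ t', s <+: t' → Split T t' → Encodable.encode t ≤ Encodable.encode t'

/-- the chosen nodes of level `k` -/
def Nd (T : Set (List ℕ)) : ℕ → List ℕ → Prop
  | 0, a => Spl T [] a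
  | k + 1, a => ∃ b u, Nd T k b ∧ b ++ [u] ∈ T ∧ Spl T (b ++ [u]) a

open Classical in
/-- a normal subtree; `T` itself if `T` is normal -/
noncomputable def nrm (T : Set (List ℕ)) : Set (List ℕ) :=
  if Nm T then T else {s | ∃ k a, Nd T k a ∧ s <+: a}

private theorem norm_spl_unique {s t t' : List ℕ} (h : Spl T s t) (h' : Spl T s t') : t = t' := by
  apply Encodable.encode_injective
  exact le_antisymm (h.2 t' h'.1.1 h'.1.2) (h'.2 t h.1.1 h.1.2)

private theorem norm_exists_spl {s : List ℕ} (h : ∃ t, s <+: t ∧ Split T t) : ∃ t, Spl T s t := by
  classical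
  have hex : ∃ k, ∃ t, (s <+: t ∧ Split T t) ∧ Encodable.encode t = k := by
    obtain ⟨t, ht⟩ := h
    exact ⟨_, t, ht, rfl⟩
  obtain ⟨t, ht, hk⟩ := Nat.find_spec hex
  refine ⟨t, ht, fun t' h1 h2 => ?_⟩
  rw [hk]
  exact Nat.find_min' hex ⟨t', ⟨h1, h2⟩, rfl⟩

private theorem norm_split {k : ℕ} {a : List ℕ} (h : Nd T k a) : Split T a := by
  cases k with
  | zero => exact h.1.2
  | succ k =>
    obtain ⟨b, u, _, _, hs⟩ := h
    exact hs.1.2

/-- all chosen nodes extend the root -/
private theorem norm_root {k : ℕ} {a c : List ℕ} (h : Nd T k a) (hc : Spl T [] c) : c <+: a := by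
  induction k generalizing a with
  | zero => exact norm_spl_unique hc h ▸ List.prefix_refl _
  | succ k ih =>
    obtain ⟨b, u, hb, _, hs⟩ := h
    exact ((ih hb).trans (List.prefix_append _ _)).trans hs.1.1

private theorem norm_same {b a : List ℕ} {u v : ℕ} (h : b ++ [u] <+: a) (h' : b ++ [v] <+: a) : u = v := by
  have e : b ++ [u] = b ++ [v] := by
    rcases prefix_or h h' with h7 | h7
    · exact h7.eq_of_length (by simp)
    · exact (h7.eq_of_length (by simp)).symm
  simpa using e

/-- if `b` and `b'` are chosen and `b ++ [u] <+: b'` then the chosen node above `b ++ [u]` is below `b'` -/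
private theorem norm_claim (n : ℕ) : ∀ (j k : ℕ) (b b' e : List ℕ) (u : ℕ), j + k = n → Nd T j b → Nd T k b' →
    b ++ [u] <+: b' → Spl T (b ++ [u]) e → e <+: b' := by
  induction n using Nat.strong_induction_on with
  | _ n ih =>
    intro j k b b' e u hn hb hb' hbb' he
    cases k with
    | zero =>
      exfalso
      have h1 := (norm_root hb hb').length_le
      have h2 := hbb'.length_le
      simp at h2
      omega
    | succ k =>
      obtain ⟨c, v, hc, hcT, hs⟩ := hb'
      have h1 : c ++ [v] <+: b' := hs.1.1
      have h2 : c <+: b' := (List.prefix_append _ _).trans h1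
      rcases prefix_or hbb' h2 with h3 | h3
      · exact (ih (j + k) (by omega) j k b c e u rfl hb hc h3 he).trans h2
      · by_cases h4 : c = b ++ [u]
        · exact (ih (j + k) (by omega) j k b c e u rfl hb hc (h4 ▸ List.prefix_refl _) he).trans h2
        · have h5 : c <+: b := by
            rcases prefix_or h3 (List.prefix_append b [u]) with h6 | h6
            · exact h6
            · have h7 := h3.length_le
              have h8 := h6.length_le
              simp at h7
              rcases Nat.lt_or_ge c.length (b.length + 1) with h9 | h9
              · exact (h6.eq_of_length (by omega)).symm ▸ List.prefix_refl _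
              · exact absurd (h3.eq_of_length (by simp; omega)) h4
          by_cases h6 : c = b
          · subst h6
            have := norm_same hbb' h1
            subst this
            exact norm_spl_unique he hs ▸ List.prefix_refl _
          · exfalso
            have h7 : b <+: b' := (List.prefix_append _ _).trans hbb'
            have h8 : c ++ [v] <+: b := by
              rcases prefix_or h1 h7 with h9 | h9
              · exact h9
              · exfalso
                have h10 := h9.length_le
                have h11 := h5.length_le
                simp at h10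
                rcases Nat.lt_or_ge c.length b.length with h12 | h12
                · have h13 : b = c ++ [v] := h9.eq_of_length (by simp; omega)
                  have h14 := hbb'.length_le
                  have h15 : b.length = c.length + 1 := by rw [h13]; simp
                  have h16 := ih (k + j) (by omega) k j c b b' v rfl hc hb (h13 ▸ List.prefix_refl _) hs
                  have h17 := h16.length_le
                  simp at h14
                  omega
                · exact h6 (h5.eq_of_length (by omega))
            have h9 := (ih (k + j) (by omega) k j c b b' v rfl hc hb h8 hs).length_le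
            have h10 := hbb'.length_le
            simp at h10
            omega

/-- the chosen node through which one enters the chosen nodes above `s` -/
private theorem norm_entry {k : ℕ} {a s : List ℕ} (h : Nd T k a) (hs : s <+: a) (hne : ∀ k, ¬ Nd T k s) :
    ∃ e, s <+: e ∧ e <+: a ∧ (∃ k, Nd T k e) ∧
      (Spl T [] e ∨ ∃ k c w, Nd T k c ∧ c ++ [w] <+: s ∧ Spl T (c ++ [w]) e) := by
  induction k generalizing a with
  | zero => exact ⟨a, hs, List.prefix_refl _, ⟨0, h⟩, Or.inl h⟩
  | succ k ih =>
    have h0 := h
    obtain ⟨b, u, hb, hbT, hsp⟩ := h
    have h1 : b ++ [u] <+: a := hsp.1.1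
    have h2 : b <+: a := (List.prefix_append _ _).trans h1
    rcases prefix_or hs h2 with h3 | h3
    · obtain ⟨e, h4, h5, h6, h7⟩ := ih hb h3
      exact ⟨e, h4, h5.trans h2, h6, h7⟩
    · have h4 : b ++ [u] <+: s := by
        rcases prefix_or h1 hs with h5 | h5
        · exact h5
        · have h6 := h5.length_le
          have h7 := h3.length_le
          simp at h6
          rcases Nat.lt_or_ge b.length s.length with h8 | h8
          · have h9 : s = b ++ [u] := h5.eq_of_length (by simp; omega)
            exact h9 ▸ List.prefix_refl _
          · exact absurd ((h3.eq_of_length (by omega)) ▸ hb) (hne k)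
      exact ⟨a, hs, List.prefix_refl _, ⟨k + 1, h0⟩, Or.inr ⟨k, b, u, hb, h4, hsp⟩⟩

theorem nrm_of_nm (h : Nm T) : nrm T = T := if_pos h

theorem nrm_subset (h : TC md T) : nrm T ⊆ T := by
  by_cases hn : Nm T
  · rw [nrm_of_nm hn]
  · unfold nrm
    rw [if_neg hn]
    rintro s ⟨k, a, ha, hs⟩
    exact h.isTree.of_prefix hs (norm_split ha).1

private theorem norm_mem (hn : ¬ Nm T) {s : List ℕ} : s ∈ nrm T ↔ ∃ k a, Nd T k a ∧ s <+: a := by
  unfold nrm
  rw [if_neg hn]
  exact Iff.rfl

/-- a chosen node is a splitting node of `nrm T` -/
private theorem norm_split_nrm (h : TC md T) (hn : ¬ Nm T) {k : ℕ} {a : List ℕ} (ha : Nd T k a) : Split (nrm T) a := by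
  refine ⟨(norm_mem hn).2 ⟨k, a, ha, List.prefix_refl _⟩, fun m => ?_⟩
  obtain ⟨n, hmn, hnT⟩ := (norm_split ha).2 m
  obtain ⟨t, ht⟩ := norm_exists_spl (h.exists_split hnT)
  exact ⟨n, hmn, (norm_mem hn).2 ⟨k + 1, t, ⟨a, n, ha, hnT, ht⟩, ht.1.1⟩⟩

theorem nrm_nm (h : TC md T) : Nm (nrm T) := by
  by_cases hn : Nm T
  · rw [nrm_of_nm hn]
    exact hn
  intro s hs
  by_cases hc : ∃ k, Nd T k s
  · obtain ⟨k, hk⟩ := hc
    exact Or.inl (norm_split_nrm h hn hk)
  have hne : ∀ k, ¬ Nd T k s := fun k hk => hc ⟨k, hk⟩
  right
  intro n n' hsn hsn'
  obtain ⟨k, a, ha, hsa⟩ := (norm_mem hn).1 hsn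
  obtain ⟨k', a', ha', hsa'⟩ := (norm_mem hn).1 hsn'
  obtain ⟨e, he1, he2, ⟨j, hj⟩, he3⟩ := norm_entry ha ((List.prefix_append _ _).trans hsa) hne
  obtain ⟨e', he1', he2', ⟨j', hj'⟩, he3'⟩ := norm_entry ha' ((List.prefix_append _ _).trans hsa') hne
  have hee : e = e' := by
    rcases he3 with h1 | ⟨i, c, w, h1, h2, h3⟩
    · rcases he3' with h1' | ⟨i', c', w', h1', h2', h3'⟩
      · exact norm_spl_unique h1 h1'
      · exfalso
        have h4 := (norm_root h1' h1).length_le
        have h5 := h2'.length_le
        have h6 := he1.length_le
        simp at h5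
        omega
    · rcases he3' with h1' | ⟨i', c', w', h1', h2', h3'⟩
      · exfalso
        have h4 := (norm_root h1 h1').length_le
        have h5 := h2.length_le
        have h6 := he1'.length_le
        simp at h5
        omega
      · rcases lt_trichotomy c.length c'.length with h4 | h4 | h4
        · exfalso
          have h5 : c ++ [w] <+: c' := by
            rcases prefix_or h2 ((List.prefix_append c' [w']).trans h2') with h6 | h6
            · exact h6
            · have h7 := h6.length_le
              simp at h7
              exact (h6.eq_of_length (by simp; omega)).symm ▸ List.prefix_refl _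
          have h6 := (norm_claim (i + i') i i' c c' e w rfl h1 h1' h5 h3).length_le
          have h7 := h2'.length_le
          have h8 := he1.length_le
          simp at h7
          omega
        · have h5 : c = c' := by
            rcases prefix_or ((List.prefix_append c [w]).trans h2) ((List.prefix_append c' [w']).trans h2') with h6 | h6
            · exact h6.eq_of_length h4
            · exact (h6.eq_of_length h4.symm).symm
          subst h5
          have h6 := norm_same h2 h2'
          subst h6
          exact norm_spl_unique h3 h3'
        · exfalso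
          have h5 : c' ++ [w'] <+: c := by
            rcases prefix_or h2' ((List.prefix_append c [w]).trans h2) with h6 | h6
            · exact h6
            · have h7 := h6.length_le
              simp at h7
              exact (h6.eq_of_length (by simp; omega)).symm ▸ List.prefix_refl _
          have h6 := (norm_claim (i' + i) i' i c' c e' w' rfl h1' h1 h5 h3').length_le
          have h7 := h2.length_le
          have h8 := he1'.length_le
          simp at h7
          omega
  subst hee
  have hlt : s.length < e.length := by
    rcases Nat.lt_or_ge s.length e.length with h1 | h1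
    · exact h1
    · exact absurd (he1.eq_of_length_le h1 ▸ hj) (hne j)
  have key : ∀ m x, s ++ [m] <+: x → e <+: x → s ++ [m] <+: e := by
    intro m x h1 h2
    rcases prefix_or h1 h2 with h3 | h3
    · exact h3
    · have h4 := h3.length_le
      simp at h4
      exact (h3.eq_of_length (by simp; omega)).symm ▸ List.prefix_refl _
  exact norm_same (key n a hsa he2) (key n' a' hsa' he2')

theorem nrm_tc (h : TC md T) : TC md (nrm T) := by
  by_cases hn : Nm T
  · rw [nrm_of_nm hn]
    exact h
  cases md with
  | laver => exact absurd (Laver.nm h) hn
  | miller =>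
    obtain ⟨a, ha⟩ := norm_exists_spl (h.exists_split h.nil_mem)
    refine ⟨fun s n hs => ?_, (norm_mem hn).2 ⟨0, a, ha, List.nil_prefix⟩, fun s hs => ?_⟩
    · obtain ⟨k, b, hb, h1⟩ := (norm_mem hn).1 hs
      exact (norm_mem hn).2 ⟨k, b, hb, (List.prefix_append _ _).trans h1⟩
    · obtain ⟨k, b, hb, h1⟩ := (norm_mem hn).1 hs
      exact ⟨b, h1, norm_split_nrm h hn hb⟩

end Pool.Agent.Lib.MP_011f3a_lc.LM
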