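import Pool.Agent.Lib.MP_011f3a_lc.LM.A.DV
import Pool.Agent.Lib.MP_011f3a_lc.LM.A.TreeB
import Pool.Agent.Lib.MP_011f3a_lc.LM.B.Kp
import Pool.Agent.Lib.MP_011f3a_lc.LM.B.Node
import Pool.Agent.Lib.MP_011f3a_lc.LM.B.Norm

/-! # Amalgamation (module B-AMAL)

`T` is normal and `U r ⊆ Rg T m r` is a normal condition with the same first splitting node `a` as `Rg T m r`, for all `r` with
`wt r < m`. The union `am m U` of the `U r` is a normal condition and `TLe m (am m U) T`: a child of the kept node `a` of index `r` belongs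
to the union iff it belongs to `U r` or it is one of the first children (number `n`, `wt (n :: r) < m`; then it is an initial segment of the
kept node of index `n :: r`). So the first children of `a` and their numbers are the same in the union. For `r` with `wt r < m` show by
induction on `r` that the kept nodes are the same. -/

namespace Pool.Agent.Lib.MP_011f3a_lc.LM

variable {md : Md} {T : Set (List ℕ)} {s a : List ℕ} {r : List ℕ} {m : ℕ} {U : List ℕ → Set (List ℕ)}

/-- the amalgam -/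
def am (m : ℕ) (U : List ℕ → Set (List ℕ)) : Set (List ℕ) := {s | ∃ r, wt r < m ∧ s ∈ U r}

/-- the hypotheses of the amalgamation -/
structure AmH (md : Md) (T : Set (List ℕ)) (m : ℕ) (U : List ℕ → Set (List ℕ)) : Prop where
  tc : TC md T
  nm : Nm T
  pos : 0 < m
  sub : ∀ r, wt r < m → U r ⊆ Rg T m r
  utc : ∀ r, wt r < m → TC md (U r)
  unm : ∀ r, wt r < m → Nm (U r)
  st : ∀ r, wt r < m → ∀ a, Kp T r a → St (U r) a

/-- `s ++ [n]` and `s ++ [n']` both initial segments of `t` -/
private theorem amal_eq_of_prefix {s t : List ℕ} {n n' : ℕ} (h : s ++ [n] <+: t) (h' : s ++ [n'] <+: t) : n = n' := by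
  have e : s ++ [n] = s ++ [n'] := by
    rcases prefix_or h h' with h3 | h3
    · exact h3.eq_of_length (by simp)
    · exact (h3.eq_of_length (by simp)).symm
  simpa using e

/-- `a` is an initial segment of `s ++ [n]` but not equal to it -/
private theorem amal_prefix_of_ne {s a : List ℕ} {n : ℕ} (h : a <+: s ++ [n]) (hne : a ≠ s ++ [n]) : a <+: s := by
  rcases prefix_or h (List.prefix_append s [n]) with h1 | h1
  · exact h1
  · have h2 := h1.length_le
    have h3 := h.length_le
    simp at h3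
    rcases Nat.lt_or_ge s.length a.length with h4 | h4
    · exact absurd (h.eq_of_length (by simp; omega)) hne
    · rw [h1.eq_of_length (by omega)]

/-- a kept node above another one lies above a child, whose index is a suffix of its index -/
private theorem amal_L1 (h : TC md T) (hn : Nm T) {r' a' : List ℕ} (ha : Kp T r a) (ha' : Kp T r' a') (hne : a ≠ a')
    (hp : a <+: a') : ∃ n u, Suc T a n u ∧ a ++ [u] <+: a' ∧ (n :: r) <:+ r' := by
  obtain ⟨l, hl⟩ := Kp.suffix_of_prefix ha ha' hp
  rcases List.eq_nil_or_concat l with rfl | ⟨l', n, rfl⟩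
  · simp at hl
    subst hl
    exact absurd (Kp.unique ha ha') hne
  · obtain ⟨b, hb⟩ := exists_kp h hn (n :: r)
    have hsuf : (n :: r) <:+ r' := ⟨l', by rw [← hl]; simp⟩
    have hba : b <+: a' := Kp.prefix_of_suffix hb ha' hsuf
    obtain ⟨a₀, u, h1, h2, _⟩ := kp_cons.1 hb
    have := Kp.unique h1 ha
    subst this
    exact ⟨n, u, h2, (Kp.cons_prefix hb h1 h2).trans hba, hsuf⟩

/-- branching points of kept nodes are kept nodes -/
private theorem amal_L2 {n n' : ℕ} (ha : Kp T r a) (hs : s ++ [n] <+: a) (hs' : s ++ [n'] ∈ T) (hne : n ≠ n') :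
    ∃ r', r' <:+ r ∧ Kp T r' s := by
  induction r generalizing a with
  | nil =>
    exfalso
    rcases (kp_nil.1 ha).2 _ hs' with h1 | h1
    · exact hne (amal_eq_of_prefix hs h1)
    · exact hne (amal_eq_of_prefix (hs.trans h1) (List.prefix_refl _))
  | cons k r ih =>
    obtain ⟨b, u, hb, hu, hst⟩ := kp_cons.1 ha
    have hba : b ++ [u] <+: a := Kp.cons_prefix ha hb hu
    rcases prefix_or hs ((List.prefix_append b [u]).trans hba) with h1 | h1
    · obtain ⟨r', h2, h3⟩ := ih hb h1
      exact ⟨r', h2.trans (List.suffix_cons k r), h3⟩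
    · by_cases he : b = s ++ [n]
      · obtain ⟨r', h2, h3⟩ := ih hb (he ▸ List.prefix_refl _)
        exact ⟨r', h2.trans (List.suffix_cons k r), h3⟩
      · have h2 : b <+: s := amal_prefix_of_ne h1 he
        by_cases he' : b = s
        · subst he'
          exact ⟨r, List.suffix_cons k r, hb⟩
        · exfalso
          have h3 : b ++ [u] <+: s := by
            rcases prefix_or hba ((List.prefix_append s [n]).trans hs) with h4 | h4
            · exact h4
            · have h5 := h4.length_le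
              have h6 := h2.length_le
              simp at h5
              rcases Nat.lt_or_ge b.length s.length with h7 | h7
              · rw [h4.eq_of_length (by simp; omega)]
              · exact absurd (h2.eq_of_length (by omega)) he'
          have h4 : s ++ [n'] ∈ abv T (b ++ [u]) := mem_abv_of_prefix hs' (h3.trans (List.prefix_append _ _))
          rcases hst.2 _ h4 with h5 | h5
          · exact hne (amal_eq_of_prefix hs h5)
          · exact hne (amal_eq_of_prefix (hs.trans h5) (List.prefix_refl _))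

theorem AmH.subset (h : AmH md T m U) : am m U ⊆ T := by
  rintro s ⟨r, hr, hs⟩
  exact reg_subset T m r (h.sub r hr hs)

theorem AmH.mem_child (h : AmH md T m U) (hr : wt r < m) (ha : Kp T r a) {n u : ℕ} (hu : Suc T a n u) :
    a ++ [u] ∈ am m U ↔ wt (n :: r) < m ∨ a ++ [u] ∈ U r := by
  constructor
  · rintro ⟨r', hr', hs⟩
    obtain ⟨a', ha'⟩ := exists_kp h.tc h.nm r'
    obtain ⟨h1, h2, h3⟩ := (mem_reg ha').1 (h.sub r' hr' hs)
    by_cases h4 : a ++ [u] <+: a'
    · left
      have h5 : a ≠ a' := by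
        rintro rfl
        have := h4.length_le
        simp at this
      obtain ⟨n', u', h6, h7, h8⟩ := amal_L1 h.tc h.nm ha ha' h5 ((List.prefix_append a [u]).trans h4)
      have h9 := amal_eq_of_prefix h4 h7
      subst h9
      have h10 := Suc.inj hu h6
      subst h10
      exact lt_of_le_of_lt (wt_le_of_suffix h8) hr'
    · right
      have h5 : a' <+: a := by
        rcases h2 with h2 | h2
        · exact absurd h2 h4
        · exact amal_prefix_of_ne h2 fun e => h4 (e ▸ List.prefix_refl _)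
      by_cases he : a' = a
      · subst he
        have := Kp.inj ha' ha
        subst this
        exact hs
      · exfalso
        obtain ⟨n', u', h6, h7, h8⟩ := amal_L1 h.tc h.nm ha' ha he h5
        exact h3 n' (lt_of_le_of_lt (wt_le_of_suffix h8) hr) u' h6 (h7.trans (List.prefix_append _ _))
  · rintro (h1 | h1)
    · obtain ⟨b, hb, hb', _⟩ := Kp.exists_cons h.tc h.nm ha hu
      exact ⟨n :: r, h1, (h.utc _ h1).isTree.of_prefix hb' (h.st _ h1 b hb).mem⟩
    · exact ⟨r, hr, h1⟩

private theorem amal_split_kp (h : AmH md T m U) (hr : wt r < m) (ha : Kp T r a) : Split (am m U) a :=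
  (h.st r hr a ha).1.mono fun _ ht => ⟨r, hr, ht⟩

private theorem amal_isTree (h : AmH md T m U) : IsTree (am m U) := by
  rintro s n ⟨r, hr, hs⟩
  exact ⟨r, hr, (h.utc r hr).isTree s n hs⟩

/-- in a Laver tree every extension of the stem is a kept node -/
private theorem amal_kp_of_laver (hT : Laver T) {a₀ : List ℕ} (ha₀ : St T a₀) (hs : s ∈ T) (has : a₀ <+: s) :
    ∃ r, Kp T r s := by
  induction s using List.reverseRecOn with
  | nil =>
    have : a₀ = [] := List.prefix_nil.1 has
    subst this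
    exact ⟨[], kp_nil.2 ha₀⟩
  | append_singleton t u ih =>
    by_cases he : a₀ = t ++ [u]
    · subst he
      exact ⟨[], kp_nil.2 ha₀⟩
    · obtain ⟨r, hr⟩ := ih (hT.1 t u hs) (amal_prefix_of_ne has he)
      obtain ⟨n, hn⟩ := exists_index hs
      exact ⟨n :: r, Laver.kp_cons hT hr hn⟩

theorem AmH.tc_am (h : AmH md T m U) : TC md (am m U) := by
  cases md with
  | miller =>
    refine ⟨amal_isTree h, ⟨[], by rw [wt_nil]; exact h.pos, (h.utc [] (by rw [wt_nil]; exact h.pos)).nil_mem⟩, ?_⟩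
    rintro s ⟨r, hr, hs⟩
    obtain ⟨t, ht, ht'⟩ := (h.utc r hr).exists_split hs
    exact ⟨t, ht, ht'.mono fun _ hx => ⟨r, hr, hx⟩⟩
  | laver =>
    obtain ⟨a₀, ha₀⟩ := exists_St h.tc h.nm
    have h0 : wt [] < m := by rw [wt_nil]; exact h.pos
    refine laver_of_st (a := a₀) (amal_isTree h)
      ⟨amal_split_kp h h0 (kp_nil.2 ha₀), fun s hs => ha₀.2 s (h.subset hs)⟩ ?_
    rintro s ⟨r, hr, hs⟩ has
    obtain ⟨a, ha⟩ := exists_kp h.tc h.nm r
    have hsT : s ∈ T := h.subset ⟨r, hr, hs⟩
    rcases ((mem_reg ha).1 (h.sub r hr hs)).2.1 with h1 | h1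
    · obtain ⟨r', hr'⟩ := amal_kp_of_laver h.tc ha₀ hsT has
      exact amal_split_kp h (lt_of_le_of_lt (wt_le_of_suffix (Kp.suffix_of_prefix hr' ha h1)) hr) hr'
    · exact (Laver.split (h.utc r hr) (h.st r hr a ha) hs h1).mono fun _ hx => ⟨r, hr, hx⟩

theorem AmH.nm_am (h : AmH md T m U) : Nm (am m U) := by
  intro s _
  by_contra hcon
  push Not at hcon
  obtain ⟨hsp, n, n', hn, hn', hne⟩ := hcon
  obtain ⟨r₁, hr₁, hn⟩ := hn
  obtain ⟨r₂, hr₂, hn'⟩ := hn'
  have hT₁ : s ++ [n] ∈ T := h.subset ⟨r₁, hr₁, hn⟩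
  have hT₂ : s ++ [n'] ∈ T := h.subset ⟨r₂, hr₂, hn'⟩
  obtain ⟨a₁, ha₁⟩ := exists_kp h.tc h.nm r₁
  obtain ⟨a₂, ha₂⟩ := exists_kp h.tc h.nm r₂
  obtain ⟨_, hc₁, hd₁⟩ := (mem_reg ha₁).1 (h.sub r₁ hr₁ hn)
  obtain ⟨_, hc₂, hd₂⟩ := (mem_reg ha₂).1 (h.sub r₂ hr₂ hn')
  have key : ∀ {r a : List ℕ} {k k' : ℕ}, wt r < m → Kp T r a → s ++ [k'] ∈ T → k ≠ k' → ¬ s ++ [k] <+: a := by
    intro r a k k' hr ha hk' hkk hp
    obtain ⟨r', h1, h2⟩ := amal_L2 ha hp hk' hkk
    exact hsp (amal_split_kp h (lt_of_le_of_lt (wt_le_of_suffix h1) hr) h2)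
  have h1 : a₁ <+: s := by
    rcases hc₁ with h1 | h1
    · exact absurd h1 (key hr₁ ha₁ hT₂ hne)
    · exact amal_prefix_of_ne h1 fun e => key hr₁ ha₁ hT₂ hne (e ▸ List.prefix_refl _)
  have h2 : a₂ <+: s := by
    rcases hc₂ with h1 | h1
    · exact absurd h1 (key hr₂ ha₂ hT₁ (Ne.symm hne))
    · exact amal_prefix_of_ne h1 fun e => key hr₂ ha₂ hT₁ (Ne.symm hne) (e ▸ List.prefix_refl _)
  by_cases he : a₁ = a₂
  · subst he
    have := Kp.inj ha₁ ha₂
    subst this
    rcases h.unm r₁ hr₁ s ((h.utc r₁ hr₁).isTree s n hn) with h3 | h3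
    · exact hsp (h3.mono fun _ hx => ⟨r₁, hr₁, hx⟩)
    · exact hne (h3 n n' hn hn')
  · rcases prefix_or h1 h2 with h3 | h3
    · obtain ⟨k, u, h4, h5, h6⟩ := amal_L1 h.tc h.nm ha₁ ha₂ he h3
      exact hd₁ k (lt_of_le_of_lt (wt_le_of_suffix h6) hr₂) u h4 ((h5.trans h2).trans (List.prefix_append _ _))
    · obtain ⟨k, u, h4, h5, h6⟩ := amal_L1 h.tc h.nm ha₂ ha₁ (Ne.symm he) h3
      exact hd₂ k (lt_of_le_of_lt (wt_le_of_suffix h6) hr₁) u h4 ((h5.trans h1).trans (List.prefix_append _ _))

end Pool.Agent.Lib.MP_011f3a_lc.LM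

/-! # More decidable events about names of trees (module A-TREEC)

As in A/TreeB.lean; unfold the definitions, everything is a countable combination of the events `s ∈ T G`. For `bt_nrm`: `Nd (T G) k a` by induction on `k`. -/

namespace Pool.Agent.Lib.MP_011f3a_lc.LM

variable {P : Type} [Preorder P] {T T' : Flt P → Set (List ℕ)}

theorem bt_nm (h : BT T) : BPr fun G => Nm (T G) := by
  refine BPr.all fun s => BPr.imp (h s) (BPr.or (bt_split h s) ?_)
  exact BPr.all fun n => BPr.all fun n' => BPr.imp (h _) (BPr.imp (h _) (BPr.const _))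

private theorem treeC_spl (h : BT T) (s t : List ℕ) : BPr fun G => Spl (T G) s t := by
  refine BPr.and (BPr.and (BPr.const _) (bt_split h t)) ?_
  exact BPr.all fun t' => BPr.imp (BPr.const _) (BPr.imp (bt_split h t') (BPr.const _))

private theorem treeC_nd (h : BT T) (k : ℕ) (a : List ℕ) : BPr fun G => Nd (T G) k a := by
  induction k generalizing a with
  | zero => exact treeC_spl h [] a
  | succ k ih =>
    refine BPr.exists fun b => BPr.exists fun u => BPr.and (ih b) (BPr.and (h _) ?_)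
    exact treeC_spl h _ a

theorem bt_nrm (h : BT T) : BT fun G => nrm (T G) := by
  intro s
  have h1 : BPr fun G => (Nm (T G) ∧ s ∈ T G) ∨
      (¬ Nm (T G) ∧ ∃ k a, Nd (T G) k a ∧ s <+: a) := by
    refine BPr.or (BPr.and (bt_nm h) (h s)) (BPr.and (BPr.not (bt_nm h)) ?_)
    exact BPr.exists fun k => BPr.exists fun a => BPr.and (treeC_nd h k a) (BPr.const _)
  refine BPr.congr h1 fun G => ?_
  show _ ↔ s ∈ nrm (T G)
  unfold nrm
  by_cases hn : Nm (T G)
  · rw [if_pos hn]
    simp [hn]
  · rw [if_neg hn]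
    simp [hn]

private theorem treeC_pty {y : Flt P → Set ℕ} (hy : ∀ n, BPr fun G => n ∈ y G) (r : List ℕ) :
    BPr fun G => Pty (y G) r := by
  induction r with
  | nil => exact BPr.const True
  | cons n r ih =>
    have h1 : BPr fun G => Pty (y G) r ∧ ((n % 2 = 1 → r.length ∈ y G) ∧
        (r.length ∈ y G → n % 2 = 1)) :=
      BPr.and ih (BPr.and (BPr.imp (BPr.const _) (hy _)) (BPr.imp (hy _) (BPr.const _)))
    refine BPr.congr h1 fun G => ?_
    show _ ↔ Pty (y G) r ∧ (n % 2 = 1 ↔ r.length ∈ y G)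
    rw [iff_iff_implies_and_implies (a := n % 2 = 1)]

theorem bt_cd (h : BT T) {y : Flt P → Set ℕ} (hy : ∀ n, BPr fun G => n ∈ y G) : BT fun G => Cd (T G) (y G) := by
  intro s
  exact BPr.exists fun r => BPr.exists fun a =>
    BPr.and (bt_kp h r a) (BPr.and (treeC_pty hy r) (BPr.const _))

theorem bt_am {T : List ℕ → Flt P → Set (List ℕ)} (h : ∀ r, BT (T r)) (m : ℕ) : BT fun G => am m fun r => T r G := by
  intro s
  exact BPr.exists fun r => BPr.and (BPr.const _) (h r s)

theorem bt_cl {a : ℕ → Flt P → List ℕ} (h : ∀ j, DV (a j)) : BT fun G => Cl fun j => a j G := by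
  intro s
  exact BPr.exists fun j => (h j).bpr' fun x => s <+: x

theorem bt_of_dv {Y : Type*} {y : Flt P → Y} (hy : DV y) {T : Y → Flt P → Set (List ℕ)} (h : ∀ a, BT (T a)) :
    BT fun G => T (y G) G := by
  intro s
  exact DV.bpr hy fun a => h a s

theorem bt_of_prop {T : Flt P → Set (List ℕ)} {Ψ : Flt P → Prop} (h : BT T) (hΨ : BPr Ψ) :
    BT fun G => {s | Ψ G → s ∈ T G} := by
  intro s
  exact BPr.imp hΨ (h s)

end Pool.Agent.Lib.MP_011f3a_lc.LM
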