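import Pool.Agent.Lib.MP_011f3a_lc.LM.B.St

/-! # Combination of trees above different children of a node (module B-COMB)

`T l` is a condition all of whose nodes are comparable with `a ++ [n l]`, and in the Laver case `a ++ [n l]` is its stem. The union is a
condition with first splitting node `a`. Its children of `a` are the `a ++ [n l]`. A node of `T l'` which extends `a ++ [n l]` is comparable with `a ++ [n l']`, so
`l = l'`. -/

namespace Pool.Agent.Lib.MP_011f3a_lc.LM

variable {md : Md}

/-- the hypotheses of the combination -/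
structure CoH (md : Md) (a : List ℕ) (n : ℕ → ℕ) (T : ℕ → Set (List ℕ)) : Prop where
  mono : StrictMono n
  tc : ∀ l, TC md (T l)
  sub : ∀ l, T l ⊆ abv Set.univ (a ++ [n l])
  st : md = Md.laver → ∀ l, St (T l) (a ++ [n l])

variable {a : List ℕ} {n : ℕ → ℕ} {T : ℕ → Set (List ℕ)}

theorem CoH.mem (h : CoH md a n T) (l : ℕ) : a ++ [n l] ∈ T l := (h.tc l).of_subset_abv (h.sub l)

/-- two children of `a` with a common extension are equal -/
private theorem comb_eq {u v : ℕ} {x : List ℕ} (h : a ++ [u] <+: x) (h' : a ++ [v] <+: x) : u = v := by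
  have e : a ++ [u] = a ++ [v] := by
    rcases prefix_or h h' with h3 | h3
    · exact h3.eq_of_length (by simp)
    · exact (h3.eq_of_length (by simp)).symm
  simpa using e

private theorem comb_cmp {u v : ℕ} (h : a ++ [u] <+: a ++ [v] ∨ a ++ [v] <+: a ++ [u]) : u = v := by
  rcases h with h | h
  · exact comb_eq h (List.prefix_refl _)
  · exact comb_eq (List.prefix_refl _) h

private theorem comb_split (h : CoH md a n T) : Split (⋃ l, T l) a := by
  refine ⟨Set.mem_iUnion.2 ⟨0, (h.tc 0).isTree _ _ (h.mem 0)⟩, fun m => ⟨n m, h.mono.id_le m, ?_⟩⟩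
  exact Set.mem_iUnion.2 ⟨m, h.mem m⟩

private theorem comb_tree (h : CoH md a n T) : IsTree (⋃ l, T l) := by
  intro s m hs
  obtain ⟨l, hl⟩ := Set.mem_iUnion.1 hs
  exact Set.mem_iUnion.2 ⟨l, (h.tc l).isTree s m hl⟩

theorem CoH.st_union (h : CoH md a n T) : St (⋃ l, T l) a := by
  refine ⟨comb_split h, fun s hs => ?_⟩
  obtain ⟨l, hl⟩ := Set.mem_iUnion.1 hs
  rcases (h.sub l hl).2 with h1 | h1
  · exact prefix_or h1 (List.prefix_append _ _)
  · exact Or.inr ((List.prefix_append _ _).trans h1)

theorem CoH.sub_child (h : CoH md a n T) (l : ℕ) : (⋃ l, T l) ∩ abv Set.univ (a ++ [n l]) ⊆ T l := by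
  rintro x ⟨hx, -, hx2⟩
  obtain ⟨l', hl'⟩ := Set.mem_iUnion.1 hx
  rcases hx2 with h1 | h1
  · exact (h.tc l).isTree.of_prefix h1 (h.mem l)
  · have e : n l = n l' := by
      rcases (h.sub l' hl').2 with h2 | h2
      · exact comb_cmp (Or.inl (h1.trans h2))
      · exact comb_eq h1 h2
    rw [h.mono.injective e]
    exact hl'

theorem CoH.tc_union (h : CoH md a n T) : TC md (⋃ l, T l) := by
  cases md with
  | laver =>
    refine laver_of_st (comb_tree h) h.st_union fun s hs has => ?_
    obtain ⟨l, hl⟩ := Set.mem_iUnion.1 hs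
    have hmono : T l ⊆ ⋃ l, T l := Set.subset_iUnion T l
    rcases (h.sub l hl).2 with h1 | h1
    · by_cases he : s = a
      · subst he
        exact comb_split h
      · have h2 : s = a ++ [n l] := by
          apply h1.eq_of_length_le
          have h3 := has.length_le
          rcases Nat.lt_or_ge a.length s.length with h4 | h4
          · simp
            omega
          · exact absurd (has.eq_of_length (by omega)).symm he
        have h3 : Laver (T l) := h.tc l
        exact (h3.split (h.st rfl l) hl (h2 ▸ List.prefix_refl _)).mono hmono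
    · have h3 : Laver (T l) := h.tc l
      exact (h3.split (h.st rfl l) hl h1).mono hmono
  | miller =>
    refine ⟨comb_tree h, Set.mem_iUnion.2 ⟨0, (h.tc 0).nil_mem⟩, fun s hs => ?_⟩
    obtain ⟨l, hl⟩ := Set.mem_iUnion.1 hs
    obtain ⟨t, ht, hsp⟩ := (h.tc l).exists_split hl
    exact ⟨t, ht, hsp.mono (Set.subset_iUnion T l)⟩

theorem CoH.nm_union (h : CoH md a n T) (hn : ∀ l, Nm (T l)) : Nm (⋃ l, T l) := by
  intro s hs
  obtain ⟨l, hl⟩ := Set.mem_iUnion.1 hs
  have hmono : T l ⊆ ⋃ l, T l := Set.subset_iUnion T l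
  by_cases h1 : a ++ [n l] <+: s
  · rcases hn l s hl with h2 | h2
    · exact Or.inl (h2.mono hmono)
    · right
      intro k k' hk hk'
      have key : ∀ k, s ++ [k] ∈ ⋃ l, T l → s ++ [k] ∈ T l := fun k hk =>
        h.sub_child l ⟨hk, trivial, Or.inr (h1.trans (List.prefix_append _ _))⟩
      exact h2 k k' (key k hk) (key k' hk')
  · have h2 : s <+: a ++ [n l] := by
      rcases (h.sub l hl).2 with h2 | h2
      · exact h2
      · exact absurd h2 h1
    have h3 : s <+: a := by
      rcases prefix_or h2 (List.prefix_append a [n l]) with h3 | h3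
      · exact h3
      · rcases Nat.lt_or_ge a.length s.length with h4 | h4
        · exact absurd ((h2.eq_of_length_le (by simp; omega)) ▸ List.prefix_refl _) h1
        · exact (h3.eq_of_length_le h4) ▸ List.prefix_refl _
    by_cases he : s = a
    · subst he
      exact Or.inl (comb_split h)
    · right
      have h4 : s.length < a.length := by
        rcases Nat.lt_or_ge s.length a.length with h4 | h4
        · exact h4
        · exact absurd (h3.eq_of_length_le h4) he
      have key : ∀ k, s ++ [k] ∈ ⋃ l, T l → s ++ [k] <+: a := by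
        intro k hk
        rcases h.st_union.2 _ hk with h5 | h5
        · exact h5
        · have := h5.length_le
          simp at this
          exact (h5.eq_of_length (by simp; omega)) ▸ List.prefix_refl _
      intro k k' hk hk'
      have e : s ++ [k] = s ++ [k'] := by
        rcases prefix_or (key k hk) (key k' hk') with h3 | h3
        · exact h3.eq_of_length (by simp)
        · exact (h3.eq_of_length (by simp)).symm
      simpa using e

theorem CoH.child (h : CoH md a n T) {v : ℕ} : a ++ [v] ∈ ⋃ l, T l ↔ ∃ l, v = n l := by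
  constructor
  · intro hv
    obtain ⟨l, hl⟩ := Set.mem_iUnion.1 hv
    exact ⟨l, comb_cmp (h.sub l hl).2⟩
  · rintro ⟨l, rfl⟩
    exact Set.mem_iUnion.2 ⟨l, h.mem l⟩

/-- a condition contained in the union contains one of the children -/
theorem CoH.exists_child (h : CoH md a n T) {T' : Set (List ℕ)} (h' : TC md T') (hT : T' ⊆ ⋃ l, T l) :
    ∃ l, a ++ [n l] ∈ T' := by
  obtain ⟨t, ht, -, hlen⟩ := h'.exists_long h'.nil_mem (a.length + 1)
  obtain ⟨l, hl⟩ := Set.mem_iUnion.1 (hT ht)
  refine ⟨l, ?_⟩
  rcases (h.sub l hl).2 with h1 | h1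
  · exact (h1.eq_of_length_le (by simpa using hlen)) ▸ ht
  · exact h'.isTree.of_prefix h1 ht

theorem CoH.branch (h : CoH md a n T) {g : Set (List ℕ)} (hg : Branch g) (hs : g ⊆ ⋃ l, T l) : ∃ l, a ++ [n l] ∈ g := by
  obtain ⟨t, ht, hlen⟩ := hg.1 (a.length + 1)
  obtain ⟨l, hl⟩ := Set.mem_iUnion.1 (hs ht)
  refine ⟨l, ?_⟩
  rcases (h.sub l hl).2 with h1 | h1
  · exact (h1.eq_of_length (by simpa using hlen)) ▸ ht
  · exact (h1.eq_of_length (by simpa using hlen.symm)).symm ▸ ht

end Pool.Agent.Lib.MP_011f3a_lc.LM
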