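import Pool.Agent.Lib.MP_011f3a_lc.LM.B.Amal

/-! # The regions cover the tree (module B-COVER)

Let `T''` be a condition contained in `T` with first splitting node ... not needed: take any node `t ∈ T''` with more entries than all
kept nodes with index of weight `< m` (finitely many) and let `r` be the longest index of weight `< m` whose kept node `a` satisfies
`a <+: t` (the indices with this property are linearly ordered by `<:+`, `Kp.suffix_or`; `[]` is one of them because `t` is comparable with the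
first splitting node). Then `t` extends a child `a ++ [u]` of `a` with number `n` and `wt (n :: r) ≥ m` (otherwise the node of index
`n :: r` is comparable with `t`, `Kp.st_abv`, and shorter than `t`, so an initial segment of it). -/

namespace Pool.Agent.Lib.MP_011f3a_lc.LM

variable {md : Md} {T T'' : Set (List ℕ)} {s t a : List ℕ} {r : List ℕ} {m : ℕ}

theorem exists_bound (h : TC md T) (hn : Nm T) (m : ℕ) : ∃ l, ∀ r, wt r < m → ∀ a, Kp T r a → a.length < l := by
  choose f hf using fun r => exists_kp h hn r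
  refine ⟨(KS m).sup (fun r => (f r).length) + 1, fun r hr a ha => ?_⟩
  obtain rfl := (hf r).unique ha
  exact Nat.lt_succ_of_le (Finset.le_sup (f := fun r => (f r).length) (mem_KS.2 hr))

private theorem cover_snoc {a s : List ℕ} {u u' : ℕ} (h : a ++ [u] <+: s) (h' : a ++ [u'] <+: s) :
    u = u' := by
  rcases prefix_or h h' with h1 | h1
  · simpa using h1.eq_of_length (by simp)
  · exact (by simpa using h1.eq_of_length (by simp) : u' = u).symm

theorem reg_cover (h : TC md T) (hn : Nm T) (hm : 0 < m) (l : ℕ) (hl : ∀ r, wt r < m → ∀ a, Kp T r a → a.length < l)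
    (ht : t ∈ T) (htl : l ≤ t.length) : ∃ r a u, wt r < m ∧ Kp T r a ∧ a ++ [u] <+: t ∧ a ++ [u] ∈ Rg T m r := by
  have hfin : {r : List ℕ | wt r < m ∧ ∃ a, Kp T r a ∧ a <+: t}.Finite :=
    (finite_wt m).subset fun r hr => hr.1
  have hne : {r : List ℕ | wt r < m ∧ ∃ a, Kp T r a ∧ a <+: t}.Nonempty := by
    obtain ⟨a, ha⟩ := exists_kp h hn []
    refine ⟨[], by rw [wt_nil]; exact hm, a, ha, ?_⟩
    have h1 := hl [] (by rw [wt_nil]; exact hm) a ha
    rcases (kp_nil.1 ha).2 t ht with h2 | h2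
    · have := h2.length_le
      omega
    · exact h2
  obtain ⟨r, ⟨hr, a, ha, hat⟩, hmax⟩ := Set.exists_max_image _ (fun r : List ℕ => r.length) hfin hne
  have hla := hl r hr a ha
  have hta : t ≠ a := by
    rintro rfl
    omega
  obtain ⟨n, u, hu, hut⟩ := exists_child h.isTree hat hta ht
  refine ⟨r, a, u, hr, ha, hut, ?_⟩
  rw [child_mem_reg ha hu]
  by_contra hlt
  obtain ⟨b, hb, hub, hsb⟩ := Kp.exists_cons h hn ha hu
  have hlb := hl (n :: r) (not_le.1 hlt) b hb
  have hbt : b <+: t := by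
    rcases hsb.2 t (mem_abv_of_prefix ht hut) with h2 | h2
    · have := h2.length_le
      omega
    · exact h2
  have := hmax (n :: r) ⟨not_le.1 hlt, b, hb, hbt⟩
  simp only [List.length_cons] at this
  omega

/-- above a child of the kept node which belongs to the region all nodes belong to the region -/
theorem reg_of_child (ha : Kp T r a) {u : ℕ} (hu : a ++ [u] ∈ Rg T m r) (hs : s ∈ T) (hus : a ++ [u] <+: s) :
    s ∈ Rg T m r := by
  rw [mem_reg ha] at hu ⊢
  refine ⟨hs, Or.inr ((List.prefix_append a [u]).trans hus), fun n hn u' hu' hp => ?_⟩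
  have := cover_snoc hp hus
  subst this
  exact hu.2.2 n hn u' hu' (List.prefix_refl _)

/-- a condition contained in `T` contains a child of a kept node `a` in the region of `a` -/
theorem exists_reg_child (h : TC md T) (hn : Nm T) (hm : 0 < m) (h' : TC md T'') (hT : T'' ⊆ T) :
    ∃ r a u, wt r < m ∧ Kp T r a ∧ a ++ [u] ∈ Rg T m r ∧ a ++ [u] ∈ T'' := by
  obtain ⟨l, hl⟩ := exists_bound h hn m
  obtain ⟨t, ht, -, htl⟩ := h'.exists_long h'.nil_mem l
  obtain ⟨r, a, u, h1, h2, h3, h4⟩ := reg_cover h hn hm l hl (hT ht) htl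
  exact ⟨r, a, u, h1, h2, h4, h'.isTree.of_prefix h3 ht⟩

private theorem cover_aux (h : TC md T) (hn : Nm T) {r' a' : List ℕ} {u : ℕ} (hr' : wt r' < m)
    (ha : Kp T r a) (ha' : Kp T r' a') (hu : a ++ [u] ∈ Rg T m r)
    (hs : a ++ [u] <+: s) (hs' : a' <+: s) (hrr : r <:+ r') : r = r' := by
  obtain ⟨c, hc⟩ := hrr
  rcases List.eq_nil_or_concat c with h0 | ⟨c', n, h0⟩
  · rw [h0] at hc
    simpa using hc
  · exfalso
    have h1 : (n :: r) <:+ r' := ⟨c', by rw [← hc, h0]; simp⟩
    have h2 : wt (n :: r) < m := lt_of_le_of_lt (wt_le_of_suffix h1) hr'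
    obtain ⟨b, hb⟩ := exists_kp h hn (n :: r)
    have h3 : b <+: a' := hb.prefix_of_suffix ha' h1
    obtain ⟨b0, u0, h4, h5, -⟩ := kp_cons.1 hb
    obtain rfl := ha.unique h4
    have h6 := hb.cons_prefix ha h5
    have h7 := cover_snoc hs (h6.trans (h3.trans hs'))
    subst h7
    have h8 := (child_mem_reg ha h5).1 hu
    omega

/-- the region is determined by the child -/
theorem reg_child_unique (h : TC md T) (hn : Nm T) {r' a' : List ℕ} {u u' : ℕ} (hr : wt r < m) (hr' : wt r' < m)
    (ha : Kp T r a) (ha' : Kp T r' a') (hu : a ++ [u] ∈ Rg T m r) (hu' : a' ++ [u'] ∈ Rg T m r')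
    (hs : a ++ [u] <+: s) (hs' : a' ++ [u'] <+: s) : r = r' ∧ a = a' ∧ u = u' := by
  have h1 : a <+: s := (List.prefix_append a [u]).trans hs
  have h1' : a' <+: s := (List.prefix_append a' [u']).trans hs'
  have h2 : r = r' := by
    rcases ha.suffix_or ha' h1 h1' with h3 | h3
    · exact cover_aux h hn hr' ha ha' hu hs h1' h3
    · exact (cover_aux h hn hr ha' ha hu' hs' h1 h3).symm
  subst h2
  have h4 := ha.unique ha'
  subst h4
  exact ⟨rfl, rfl, cover_snoc hs hs'⟩

end Pool.Agent.Lib.MP_011f3a_lc.LM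

/-! # Amalgamation, part 2 (module B-AMALB)

See the header of B/Amal.lean. `AmH.tle`: for `r` with `wt r < m` show by induction on `r` that `Kp T r a → Kp (am m U) r a`: the first children of `a` and their numbers are the same in the union (`AmH.mem_child`, `Suc.congr`, `Suc.lt`), and above a first child `a ++ [u]` the union has the first splitting node of the region `n :: r`.
`AmH.branch`: take a long node of the branch (`reg_cover`, `exists_bound`). -/

namespace Pool.Agent.Lib.MP_011f3a_lc.LM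

variable {md : Md} {T : Set (List ℕ)} {s a : List ℕ} {r : List ℕ} {m : ℕ} {U : List ℕ → Set (List ℕ)}

private theorem amalb_sub (hr : wt r < m) : U r ⊆ am m U := fun _ hs => ⟨r, hr, hs⟩

private theorem amalb_kp (h : AmH md T m U) : ∀ r : List ℕ, wt r < m → ∀ a, Kp T r a → Kp (am m U) r a := by
  intro r
  induction r with
  | nil =>
    intro hr a ha
    rw [kp_nil] at ha ⊢
    exact ⟨(h.st [] hr a (kp_nil.2 ha)).1.mono (amalb_sub hr), fun s hs => ha.2 s (h.subset hs)⟩
  | cons n r ih =>
    intro hr a ha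
    have hr' : wt r < m := by
      rw [wt_cons] at hr
      omega
    have hst := h.st (n :: r) hr a ha
    obtain ⟨b, u, hb, hu, hsa⟩ := kp_cons.1 ha
    have hpre := ha.cons_prefix hb hu
    refine kp_cons.2 ⟨b, u, ih hr' b hb, ?_, ?_, ?_⟩
    · refine hu.congr fun v hv => ⟨fun hvT => ?_, fun hvA => h.subset hvA⟩
      obtain ⟨n', hn'⟩ := exists_index hvT
      refine (h.mem_child hr' hb hn').2 (Or.inl ?_)
      have hle : n' ≤ n := by
        by_contra hlt
        have := hu.lt hn' (not_le.1 hlt)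
        omega
      rw [wt_cons] at hr ⊢
      omega
    · exact split_abv (hst.1.mono (amalb_sub hr)) hpre
    · exact fun s hs => hsa.2 s (abv_mono h.subset _ hs)

theorem AmH.tle (h : AmH md T m U) : TLe m (am m U) T :=
  ⟨h.subset, fun r hr _ => ⟨h.nm_am, fun a ha => amalb_kp h r hr a ha⟩⟩

private theorem amalb_snoc {a s : List ℕ} {u u' : ℕ} (h : a ++ [u] <+: s) (h' : a ++ [u'] <+: s) :
    u = u' := by
  rcases prefix_or h h' with h1 | h1
  · simpa using h1.eq_of_length (by simp)
  · exact (by simpa using h1.eq_of_length (by simp) : u' = u).symm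

private theorem amalb_aux (h : TC md T) (hn : Nm T) {r' a' : List ℕ} {u : ℕ} (hr' : wt r' < m)
    (ha : Kp T r a) (ha' : Kp T r' a') (hu : a ++ [u] ∈ Rg T m r)
    (hs : a ++ [u] <+: s) (hs' : a' <+: s) (hrr : r <:+ r') : r = r' := by
  obtain ⟨c, hc⟩ := hrr
  rcases List.eq_nil_or_concat c with h0 | ⟨c', n, h0⟩
  · rw [h0] at hc
    simpa using hc
  · exfalso
    have h1 : (n :: r) <:+ r' := ⟨c', by rw [← hc, h0]; simp⟩
    have h2 : wt (n :: r) < m := lt_of_le_of_lt (wt_le_of_suffix h1) hr'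
    obtain ⟨b, hb⟩ := exists_kp h hn (n :: r)
    have h3 : b <+: a' := hb.prefix_of_suffix ha' h1
    obtain ⟨b0, u0, h4, h5, -⟩ := kp_cons.1 hb
    obtain rfl := ha.unique h4
    have h6 := hb.cons_prefix ha h5
    have h7 := amalb_snoc hs (h6.trans (h3.trans hs'))
    subst h7
    have h8 := (child_mem_reg ha h5).1 hu
    omega

/-- above a child of `a` which belongs to `U r` the amalgam is contained in `U r` -/
theorem AmH.sub_of_child (h : AmH md T m U) (hr : wt r < m) (ha : Kp T r a) {u : ℕ} (hu : a ++ [u] ∈ U r) :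
    am m U ∩ abv Set.univ (a ++ [u]) ⊆ U r := by
  rintro s ⟨hs, -, hs' | hs'⟩
  · exact (h.utc r hr).isTree.of_prefix hs' hu
  · obtain ⟨r', hr', hsU⟩ := hs
    have huR := h.sub r hr hu
    have hsR := h.sub r' hr' hsU
    obtain ⟨a', ha'⟩ := exists_kp h.tc h.nm r'
    have has : a <+: s := (List.prefix_append a [u]).trans hs'
    have key : r = r' := by
      by_cases hsa : s <+: a'
      · have h1 : a ++ [u] <+: a' := hs'.trans hsa
        have h2 : r <:+ r' := ha.suffix_of_prefix ha' (has.trans hsa)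
        exact amalb_aux h.tc h.nm hr' ha ha' huR h1 (List.prefix_refl _) h2
      · have h1 : a' <+: s := (((mem_reg ha').1 hsR).2.1).resolve_left hsa
        have h2 : s ≠ a' := by
          rintro rfl
          exact hsa (List.prefix_refl _)
        obtain ⟨n', u', -, h4⟩ := exists_child h.tc.isTree h1 h2 (reg_subset _ _ _ hsR)
        have h5 : a' ++ [u'] ∈ Rg T m r' := (reg_tc h.tc h.nm ha').isTree.of_prefix h4 hsR
        exact (reg_child_unique h.tc h.nm hr hr' ha ha' huR h5 hs' h4).1
    rw [key]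
    exact hsU

private theorem amalb_long (h : AmH md T m U) {l : ℕ} (hl : ∀ r, wt r < m → ∀ a, Kp T r a → a.length < l)
    {t : List ℕ} (ht : t ∈ am m U) (htl : l ≤ t.length) :
    ∃ r a u, wt r < m ∧ Kp T r a ∧ a ++ [u] ∈ U r ∧ a ++ [u] <+: t := by
  obtain ⟨r, hr, htU⟩ := ht
  obtain ⟨a, ha⟩ := exists_kp h.tc h.nm r
  have h1 := hl r hr a ha
  have h2 : a <+: t := by
    rcases ((mem_reg ha).1 (h.sub r hr htU)).2.1 with h3 | h3
    · have := h3.length_le
      omega
    · exact h3
  have h3 : t ≠ a := by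
    rintro rfl
    omega
  obtain ⟨n, u, -, h4⟩ := exists_child h.tc.isTree h2 h3 (reg_subset _ _ _ (h.sub r hr htU))
  exact ⟨r, a, u, hr, ha, (h.utc r hr).isTree.of_prefix h4 htU, h4⟩

/-- a condition contained in the amalgam contains such a child -/
theorem AmH.exists_child (h : AmH md T m U) {T'' : Set (List ℕ)} (h' : TC md T'') (hT : T'' ⊆ am m U) :
    ∃ r a u, wt r < m ∧ Kp T r a ∧ a ++ [u] ∈ U r ∧ a ++ [u] ∈ T'' := by
  obtain ⟨l, hl⟩ := exists_bound h.tc h.nm m
  obtain ⟨t, ht, -, htl⟩ := h'.exists_long h'.nil_mem l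
  obtain ⟨r, a, u, h1, h2, h3, h4⟩ := amalb_long h hl (hT ht) htl
  exact ⟨r, a, u, h1, h2, h3, h'.isTree.of_prefix h4 ht⟩

theorem AmH.branch (h : AmH md T m U) {g : Set (List ℕ)} (hg : Branch g) (hs : g ⊆ am m U) :
    ∃ r a u, wt r < m ∧ Kp T r a ∧ a ++ [u] ∈ U r ∧ a ++ [u] ∈ g := by
  obtain ⟨l, hl⟩ := exists_bound h.tc h.nm m
  obtain ⟨t, ht, htl⟩ := hg.1 l
  obtain ⟨r, a, u, h1, h2, h3, h4⟩ := amalb_long h hl (hs ht) htl.ge
  exact ⟨r, a, u, h1, h2, h3, hg.of_prefix h4 ht⟩

end Pool.Agent.Lib.MP_011f3a_lc.LM
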