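import Pool.Agent.Lib.MP_011f3a_lc.LM.D.PLe

/-! # Fusion (module B-FUS)

`T l` is a decreasing sequence of normal conditions and `TLe (k l) (T (l + 1)) (T l)`, `k` nondecreasing and unbounded. The
kept nodes of index of weight `< k l` of `T l` are kept nodes with the same index of all `T l'`, `l' ≥ l` (`TLe.kp_iff`). `mem_inter_iff`: for `s` in the
intersection choose `l`, such that `k l > ` the weights of ... : let `r₀, r₁, …` be ... simplest: call a node a limit node if it is a kept node of weight `< k l`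
of `T l` for some `l`; a limit node belongs to all trees; the limit node of index `[]` is comparable with `s`; if the limit node `a` of index `r` is a proper initial
segment of `s` then `s` extends a child `a ++ [u]`, the `n`-th child of `a` in `T l` for all large `l` (the first children of `a` are the same in
all `T l'`, `l' ≥ l`, if `wt (n :: r) < k l`), so `s` is comparable with the limit node of index `n :: r`. After at most `s.length` steps `s` is an initial segment of a limit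
node. -/

namespace Pool.Agent.Lib.MP_011f3a_lc.LM

variable {md : Md}

/-- fusion sequences -/
structure FusH (md : Md) (T : ℕ → Set (List ℕ)) (k : ℕ → ℕ) : Prop where
  tc : ∀ l, TC md (T l)
  nm : ∀ l, Nm (T l)
  le : ∀ l, TLe (k l) (T (l + 1)) (T l)
  mono : ∀ l, k l ≤ k (l + 1)
  unb : ∀ m, ∃ l, m ≤ k l

variable {T : ℕ → Set (List ℕ)} {k : ℕ → ℕ}

theorem FusH.k_mono (h : FusH md T k) {l l' : ℕ} (hl : l ≤ l') : k l ≤ k l' :=
  monotone_nat_of_le_succ h.mono hl

theorem FusH.tle (h : FusH md T k) {l l' : ℕ} (hl : l ≤ l') : TLe (k l) (T l') (T l) := by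
  induction l', hl using Nat.le_induction with
  | base => exact TLe.refl _ _
  | succ l' hl ih => exact ((h.le l').mono (h.k_mono hl)).trans ih

theorem FusH.shift (h : FusH md T k) (j : ℕ) : FusH md (fun l => T (l + j)) (fun l => k (l + j)) := by
  refine ⟨fun l => h.tc _, fun l => h.nm _, fun l => ?_, fun l => ?_, fun m => ?_⟩
  · have := h.le (l + j)
    rwa [show l + j + 1 = l + 1 + j by omega] at this
  · have := h.mono (l + j)
    rwa [show l + j + 1 = l + 1 + j by omega] at this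
  · obtain ⟨l, hl⟩ := h.unb m
    exact ⟨l, hl.trans (h.k_mono (Nat.le_add_right l j))⟩

/-- a kept node of small weight is kept in all later trees -/
theorem FusH.kp_later (h : FusH md T k) {l l' : ℕ} (hl : l ≤ l') {r a : List ℕ} (hr : wt r < k l)
    (ha : Kp (T l) r a) : Kp (T l') r a :=
  ((h.tle hl).2 r hr (h.nm l)).2 a ha

/-- a kept node of small weight belongs to all trees -/
theorem FusH.mem_of_kp (h : FusH md T k) {l : ℕ} {r a : List ℕ} (hr : wt r < k l) (ha : Kp (T l) r a) : a ∈ ⋂ l, T l := by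
  rw [Set.mem_iInter]
  intro l'
  rcases le_total l l' with hl | hl
  · exact (h.kp_later hl hr ha).mem
  · exact (h.tle hl).sub ha.mem

/-- there are indices where the bound is large -/
theorem FusH.exists_large (h : FusH md T k) (l m : ℕ) : ∃ l', l ≤ l' ∧ m ≤ k l' := by
  obtain ⟨l1, hl1⟩ := h.unb m
  exact ⟨max l l1, le_max_left _ _, hl1.trans (h.k_mono (le_max_right _ _))⟩

/-- the walk along `s` through the limit nodes: a limit node which is not comparable from above is a
proper initial segment of `s`, and its index has length `j` -/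
theorem FusH.walk (h : FusH md T k) {s : List ℕ} (hs : s ∈ ⋂ l, T l) (j : ℕ) :
    ∃ l r a, wt r < k l ∧ Kp (T l) r a ∧
      (s = a ∨ (s <+: a ∧ ¬ Split (T l) s) ∨ (a <+: s ∧ r.length = j)) := by
  have hsl : ∀ l, s ∈ T l := Set.mem_iInter.mp hs
  -- a splitting node below the first splitting node is equal to it
  have key : ∀ (T' : Set (List ℕ)) (a : List ℕ), St T' a → s <+: a → Split T' s → s = a := by
    intro T' a ha hsa hsp
    refine St.unique ⟨hsp, fun t ht => ?_⟩ ha
    rcases ha.2 t ht with h1 | h1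
    · exact prefix_or h1 hsa
    · exact Or.inr (hsa.trans h1)
  induction j with
  | zero =>
    obtain ⟨l, hl⟩ := h.unb 1
    obtain ⟨a, ha⟩ := exists_St (h.tc l) (h.nm l)
    refine ⟨l, [], a, by rw [wt_nil]; omega, kp_nil.mpr ha, ?_⟩
    rcases ha.2 s (hsl l) with h1 | h1
    · by_cases h2 : Split (T l) s
      · exact Or.inl (key _ _ ha h1 h2)
      · exact Or.inr (Or.inl ⟨h1, h2⟩)
    · exact Or.inr (Or.inr ⟨h1, rfl⟩)
  | succ j ih =>
    obtain ⟨l, r, a, hr, ha, hcase⟩ := ih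
    rcases hcase with h1 | h1 | ⟨h1, hj⟩
    · exact ⟨l, r, a, hr, ha, Or.inl h1⟩
    · exact ⟨l, r, a, hr, ha, Or.inr (Or.inl h1)⟩
    · by_cases hsa : s = a
      · exact ⟨l, r, a, hr, ha, Or.inl hsa⟩
      · obtain ⟨n0, u, -, hu⟩ := exists_child (h.tc l).isTree h1 hsa (hsl l)
        obtain ⟨l', hll', hkl'⟩ := h.exists_large l (wt r + u + 2)
        have ha' := h.kp_later hll' hr ha
        obtain ⟨n, u', hn, hu'⟩ := exists_child (h.tc l').isTree h1 hsa (hsl l')
        have huu : u' = u := by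
          have h2 : a ++ [u'] = a ++ [u] := by
            rcases prefix_or hu' hu with h3 | h3
            · exact h3.eq_of_length (by simp)
            · exact (h3.eq_of_length (by simp)).symm
          simpa using h2
        rw [huu] at hn hu'
        obtain ⟨a', hka', hpre, hst⟩ := Kp.exists_cons (h.tc l') (h.nm l') ha' hn
        have hnu := hn.le
        refine ⟨l', n :: r, a', by rw [wt_cons]; omega, hka', ?_⟩
        have hsabv : s ∈ abv (T l') (a ++ [u]) := mem_abv_of_prefix (hsl l') hu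
        rcases hst.2 s hsabv with h2 | h2
        · by_cases h3 : Split (T l') s
          · exact Or.inl (key _ _ hst h2 (split_abv h3 hu))
          · exact Or.inr (Or.inl ⟨h2, h3⟩)
        · exact Or.inr (Or.inr ⟨h2, by simp [hj]⟩)

/-- a node of the intersection is a limit node or a proper initial segment of one, and then it is
not splitting in some tree -/
theorem FusH.limit_or (h : FusH md T k) {s : List ℕ} (hs : s ∈ ⋂ l, T l) :
    ∃ l r a, wt r < k l ∧ Kp (T l) r a ∧ (s = a ∨ (s <+: a ∧ ¬ Split (T l) s)) := by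
  obtain ⟨l, r, a, hr, ha, hcase⟩ := h.walk hs (s.length + 1)
  rcases hcase with h1 | h1 | ⟨h1, h2⟩
  · exact ⟨l, r, a, hr, ha, Or.inl h1⟩
  · exact ⟨l, r, a, hr, ha, Or.inr h1⟩
  · have h3 := length_le_of_kp ha
    have h4 := h1.length_le
    omega

theorem FusH.mem_iff (h : FusH md T k) {s : List ℕ} :
    s ∈ ⋂ l, T l ↔ ∃ l r a, wt r < k l ∧ Kp (T l) r a ∧ s <+: a := by
  constructor
  · intro hs
    obtain ⟨l, r, a, hr, ha, hcase⟩ := h.limit_or hs
    refine ⟨l, r, a, hr, ha, ?_⟩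
    rcases hcase with h1 | h1
    · rw [h1]
    · exact h1.1
  · rintro ⟨l, r, a, hr, ha, hsa⟩
    have h1 := Set.mem_iInter.mp (h.mem_of_kp hr ha)
    exact Set.mem_iInter.mpr fun l' => (h.tc l').isTree.of_prefix hsa (h1 l')

end Pool.Agent.Lib.MP_011f3a_lc.LM

/-! # Fusion, part 2 (module B-FUSB)

See the header of B/Fus.lean. A limit node `a` (a kept node of index `r`, `wt r < k l`, of `T l`) has in the intersection infinitely many children: for every `n` and all large `l` the `n`-th child of `a` in `T l` is an initial segment of the kept node with index `n :: r`, which belongs to the intersection; the numbers tend to infinity (`Suc.le`).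
A node of the intersection which is not a limit node has at most one child in the intersection: it is a proper initial segment of a limit node, and by `Nm (T l)` ... it is not a splitting node of `T l` for large `l`. -/

namespace Pool.Agent.Lib.MP_011f3a_lc.LM

variable {md : Md}

variable {T : ℕ → Set (List ℕ)} {k : ℕ → ℕ}

theorem FusH.isTree_inter (h : FusH md T k) : IsTree (⋂ l, T l) := by
  intro s n hs
  rw [Set.mem_iInter] at hs ⊢
  exact fun l => (h.tc l).isTree s n (hs l)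

/-- limit nodes are splitting in the intersection -/
theorem FusH.split_inter (h : FusH md T k) {l : ℕ} {r a : List ℕ} (hr : wt r < k l)
    (ha : Kp (T l) r a) : Split (⋂ l, T l) a := by
  refine ⟨h.mem_of_kp hr ha, fun m => ?_⟩
  obtain ⟨l', hll', hkl'⟩ := h.exists_large l (wt r + m + 2)
  have ha' := h.kp_later hll' hr ha
  obtain ⟨u, hu⟩ := exists_suc ha'.split m
  obtain ⟨a', hka', hpre, -⟩ := Kp.exists_cons (h.tc l') (h.nm l') ha' hu
  refine ⟨u, hu.le, ?_⟩
  have h1 := h.mem_of_kp (by rw [wt_cons]; omega : wt (m :: r) < k l') hka'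
  exact h.isTree_inter.of_prefix hpre h1

theorem FusH.tc_inter (h : FusH md T k) : TC md (⋂ l, T l) := by
  have hmil : Miller (⋂ l, T l) := by
    refine ⟨h.isTree_inter, Set.mem_iInter.mpr fun l => (h.tc l).nil_mem, fun s hs => ?_⟩
    obtain ⟨l, r, a, hr, ha, hsa⟩ := h.mem_iff.mp hs
    exact ⟨a, hsa, h.split_inter hr ha⟩
  cases md with
  | miller => exact hmil
  | laver =>
    obtain ⟨l, hl⟩ := h.unb 1
    obtain ⟨a, ha⟩ := exists_St (h.tc l) (h.nm l)
    have hka : Kp (T l) [] a := kp_nil.mpr ha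
    have hw : wt [] < k l := by rw [wt_nil]; omega
    have hsp := h.split_inter hw hka
    have hst : St (⋂ l, T l) a := ha.of_subset (Set.iInter_subset _ l) hsp
    refine laver_of_st h.isTree_inter hst ?_
    -- all nodes above the stem are limit nodes
    have key : ∀ s, s ∈ ⋂ l, T l → a <+: s → ∃ l r, wt r < k l ∧ Kp (T l) r s := by
      intro s
      induction s using List.reverseRecOn with
      | nil =>
        intro _ has
        have : a = [] := List.prefix_nil.mp has
        rw [this] at hka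
        exact ⟨l, [], hw, hka⟩
      | append_singleton s u ih =>
        intro hs has
        rcases List.prefix_concat_iff.mp has with h1 | h1
        · rw [← h1]
          exact ⟨l, [], hw, hka⟩
        · obtain ⟨l1, r, hr, hk1⟩ := ih (h.isTree_inter s u hs) h1
          obtain ⟨l', hll', hkl'⟩ := h.exists_large l1 (wt r + u + 2)
          have hk' := h.kp_later hll' hr hk1
          obtain ⟨n, hn⟩ := exists_index (Set.mem_iInter.mp hs l')
          have hnu := hn.le
          exact ⟨l', n :: r, by rw [wt_cons]; omega, Laver.kp_cons (h.tc l') hk' hn⟩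
    intro s hs has
    obtain ⟨l1, r, hr, hk1⟩ := key s hs has
    exact h.split_inter hr hk1

theorem FusH.nm_inter (h : FusH md T k) : Nm (⋂ l, T l) := by
  intro s hs
  obtain ⟨l, r, a, hr, ha, hcase⟩ := h.limit_or hs
  rcases hcase with h1 | ⟨-, h1⟩
  · left
    rw [h1]
    exact h.split_inter hr ha
  · right
    intro n n' hn hn'
    rcases h.nm l s (Set.mem_iInter.mp hs l) with h2 | h2
    · exact absurd h2 h1
    · exact h2 n n' (Set.mem_iInter.mp hn l) (Set.mem_iInter.mp hn' l)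

theorem FusH.tle_inter (h : FusH md T k) (l : ℕ) : TLe (k l) (⋂ l, T l) (T l) := by
  refine ⟨Set.iInter_subset _ l, ?_⟩
  intro r hr _
  refine ⟨h.nm_inter, ?_⟩
  induction r with
  | nil =>
    intro a ha
    exact kp_nil.mpr ((kp_nil.mp ha).of_subset (Set.iInter_subset _ l) (h.split_inter hr ha))
  | cons n r ih =>
    intro a ha
    obtain ⟨b, u, hb, hu, hst⟩ := kp_cons.mp ha
    have hr' : wt r < k l := by rw [wt_cons] at hr; omega
    have hsuc : Suc (⋂ l, T l) b n u := by
      refine hu.congr fun v hv => ⟨fun hvT => ?_, fun hvI => Set.mem_iInter.mp hvI l⟩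
      obtain ⟨n', hn'⟩ := exists_index hvT
      have hnn : n' ≤ n := by
        by_contra hlt
        have := Suc.lt hu hn' (by omega)
        omega
      obtain ⟨a', hka', hpre, -⟩ := Kp.exists_cons (h.tc l) (h.nm l) hb hn'
      have h1 := h.mem_of_kp (by rw [wt_cons] at hr ⊢; omega : wt (n' :: r) < k l) hka'
      exact h.isTree_inter.of_prefix hpre h1
    refine kp_cons.mpr ⟨b, u, ih hr' b hb, hsuc, ?_⟩
    refine hst.of_subset (abv_mono (Set.iInter_subset _ l) _) ?_
    exact split_abv (h.split_inter hr ha) (ha.cons_prefix hb hu)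

end Pool.Agent.Lib.MP_011f3a_lc.LM

/-! # Fusion (module D-FUS)

`exists_mk` with `N ξ = mkn (⋂ l, ev ((r l).co ξ) G)`. Let `w' : Cn Ω md ξ` have these values. By induction on the coordinates `w' ≤ tr ξ (r l)` for all `l`; so it is forced
that the trees of the `r l` at `ξ` form a fusion sequence (`FusH`) if `ξ ∈ (r l).supp` for some `l` (start with this `l`: `FusH.shift` is not needed, `TLe (k l)`
for all `l` holds; unboundedness by `hu`), and the intersection is `univ` otherwise. -/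

namespace Pool.Agent.Lib.MP_011f3a_lc.LM

variable {Ω : Type} [LinearOrder Ω] [WellFoundedLT Ω] {md : Md} {ζ ξ η : Ω}

private theorem fus_bt (r : ℕ → Cn Ω md ζ) (ξ : Ω) : BT fun G : Flt (Cn Ω md ξ) => ⋂ l, ev ((r l).co ξ) G :=
  bt_inter fun l => bt_ev _

private theorem fus_le (r : ℕ → Cn Ω md ζ) (w : Cn Ω md ξ)
    (hw : ∀ η < ξ, w.co η = mkn fun G => ⋂ l, ev ((r l).co η) G) (l : ℕ) : w ≤ tr ξ (r l) := by
  refine Cn.le_iff.2 fun η hη => ?_
  rw [hw η hη, co_tr _ hη]
  refine (bt_ev_mkn (fus_bt r η) _).imp fun G _ hG => ?_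
  rw [hG]
  exact Set.iInter_subset _ l

private theorem fus_main (r : ℕ → Cn Ω md ζ) (k : ℕ → Ω →₀ ℕ) (hr : ∀ l, PLe (k l) (r (l + 1)) (r l)) (hn : ∀ l, NR (r l))
    (hk : ∀ l ξ, k l ξ ≤ k (l + 1) ξ) (hu : ∀ l, ∀ ξ ∈ (r l).supp, ∀ m, ∃ l', m ≤ k l' ξ) (hξ : ξ < ζ)
    (w : Cn Ω md ξ) (hw : ∀ η < ξ, w.co η = mkn fun G => ⋂ l, ev ((r l).co η) G) :
    FA w fun G => TC md (⋂ l, ev ((r l).co ξ) G) ∧ Nm (⋂ l, ev ((r l).co ξ) G) ∧
      ∀ l, TLe (k l ξ) (⋂ l, ev ((r l).co ξ) G) (ev ((r l).co ξ) G) := by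
  by_cases hs : ∃ l, ξ ∈ (r l).supp
  · obtain ⟨l₀, hl₀⟩ := hs
    have h1 : FA w fun G => ∀ l, TC md (ev ((r l).co ξ) G) :=
      FA.all fun l => ((r l).good ξ).mono (fus_le r w hw l)
    have h2 : FA w fun G => ∀ l, Nm (ev ((r l).co ξ) G) :=
      FA.all fun l => (hn l ξ hξ).mono (fus_le r w hw l)
    have h3 : FA w fun G => ∀ l, TLe (k l ξ) (ev ((r (l + 1)).co ξ) G) (ev ((r l).co ξ) G) :=
      FA.all fun l => (hr l ξ hξ).mono (fus_le r w hw (l + 1))
    refine ((h1.and h2).and h3).imp fun G _ hG => ?_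
    have hF : FusH md (fun l => ev ((r l).co ξ) G) (fun l => k l ξ) :=
      ⟨hG.1.1, hG.1.2, hG.2, fun l => hk l ξ, hu l₀ ξ hl₀⟩
    exact ⟨hF.tc_inter, hF.nm_inter, fun l => hF.tle_inter l⟩
  · have h1 : ∀ l, (r l).co ξ = full _ _ := by
      intro l
      by_contra h
      exact hs ⟨l, h⟩
    refine FA.of_forall fun G _ => ?_
    have h2 : ∀ l, ev ((r l).co ξ) G = Set.univ := fun l => by
      rw [h1 l]
      exact ev_full G
    simp only [h2, Set.iInter_univ]
    exact ⟨TC.univ, Nm.univ, fun l => TLe.refl _ _⟩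

theorem exists_fus (r : ℕ → Cn Ω md ζ) (k : ℕ → Ω →₀ ℕ) (hr : ∀ l, PLe (k l) (r (l + 1)) (r l)) (hn : ∀ l, NR (r l))
    (hk : ∀ l ξ, k l ξ ≤ k (l + 1) ξ) (hu : ∀ l, ∀ ξ ∈ (r l).supp, ∀ m, ∃ l', m ≤ k l' ξ) :
    ∃ q : Cn Ω md ζ, (∀ l, PLe (k l) q (r l)) ∧ NR q ∧
      ∀ ξ < ζ, q.co ξ = mkn fun G => ⋂ l, ev ((r l).co ξ) G := by
  have hc : {ξ | ξ < ζ ∧ (mkn fun G : Flt (Cn Ω md ξ) => ⋂ l, ev ((r l).co ξ) G) ≠ full _ _}.Countable := by
    refine (Set.countable_iUnion fun l => (r l).supp_countable).mono ?_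
    rintro ξ ⟨_, hξ⟩
    by_contra hs
    apply hξ
    apply mkn_univ
    intro G
    have h2 : ∀ l, ev ((r l).co ξ) G = Set.univ := fun l => by
      have h1 : (r l).co ξ = full _ _ := by
        by_contra h
        exact hs (Set.mem_iUnion.2 ⟨l, h⟩)
      rw [h1]
      exact ev_full G
    simp only [h2, Set.iInter_univ]
  obtain ⟨q, hq⟩ := exists_mk (fun ξ => mkn fun G : Flt (Cn Ω md ξ) => ⋂ l, ev ((r l).co ξ) G) hc (by
    intro ξ hξ w hw
    refine (fus_main r k hr hn hk hu hξ w hw).imp₂ (bt_ev_mkn (fus_bt r ξ) w) fun G _ h1 h2 => ?_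
    rw [h2]
    exact h1.1)
  have hw : ∀ ξ < ζ, ∀ η < ξ, (tr ξ q).co η = mkn fun G => ⋂ l, ev ((r l).co η) G := by
    intro ξ hξ η hη
    rw [co_tr _ hη]
    exact hq η (hη.trans hξ)
  refine ⟨q, fun l ξ hξ => ?_, fun ξ hξ => ?_, hq⟩
  · refine (fus_main r k hr hn hk hu hξ (tr ξ q) (hw ξ hξ)).imp₂ (bt_ev_mkn (fus_bt r ξ) (tr ξ q)) fun G _ h1 h2 => ?_
    rw [hq ξ hξ, h2]
    exact h1.2.2 l
  · refine (fus_main r k hr hn hk hu hξ (tr ξ q) (hw ξ hξ)).imp₂ (bt_ev_mkn (fus_bt r ξ) (tr ξ q)) fun G _ h1 h2 => ?_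
    rw [hq ξ hξ, h2]
    exact h1.2.1

end Pool.Agent.Lib.MP_011f3a_lc.LM

/-! # Fusion with bookkeeping (module D-BOOK)

Build `r 0` (a normal condition `≤_k p`), `r (n + 1)` normal with `PLe (k n) (r (n + 1)) (r n)` and `Φ n (r (n + 1))` (`hs`, then `exists_norm`), where `k 0 = k` and
`k (n + 1) ≥ k n` is at least `n + 1` at the first `n + 1` elements (in enumerations fixed when the condition is chosen) of the supports of `r 0, …, r (n + 1)`. -/

namespace Pool.Agent.Lib.MP_011f3a_lc.LM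

variable {Ω : Type} [LinearOrder Ω] [WellFoundedLT Ω] {md : Md} {ζ ξ η : Ω}

private theorem Book_en (Ω : Type) [LinearOrder Ω] [WellFoundedLT Ω] (md : Md) (ζ : Ω) :
    ∃ en : Cn Ω md ζ → ℕ → Ω, ∀ r, ∀ ξ ∈ r.supp, ∃ t, en r t = ξ := by
  have h : ∀ r : Cn Ω md ζ, ∃ f : ℕ → Ω, ∀ ξ ∈ r.supp, ∃ t, f t = ξ := by
    intro r
    by_cases hr : r.supp.Nonempty
    · obtain ⟨f, hf⟩ := r.supp_countable.exists_eq_range hr
      exact ⟨f, fun ξ hξ => by rw [hf] at hξ; exact hξ⟩
    · exact ⟨fun _ => ζ, fun ξ hξ => absurd ⟨ξ, hξ⟩ hr⟩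
  choose en h using h
  exact ⟨en, h⟩

/-- the function which is at least `n + 1` at the first coordinates of the supports -/
private noncomputable def Book_g (en : Cn Ω md ζ → ℕ → Ω) (n : ℕ) (L : List (Cn Ω md ζ)) : Ω →₀ ℕ :=
  (L.map fun r => ∑ i ∈ Finset.range (n + 1), Finsupp.single (en r i) (n + 1)).sum

private theorem Book_g_le (en : Cn Ω md ζ → ℕ → Ω) (n : ℕ) (L : List (Cn Ω md ζ)) {r : Cn Ω md ζ}
    (hr : r ∈ L) {i : ℕ} (hi : i ≤ n) : n + 1 ≤ Book_g en n L (en r i) := by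
  classical
  have h1 : Finsupp.single (en r i) (n + 1) ≤
      ∑ i ∈ Finset.range (n + 1), Finsupp.single (en r i) (n + 1) :=
    Finset.single_le_sum (f := fun i => Finsupp.single (en r i) (n + 1))
      (fun _ _ => bot_le) (Finset.mem_range.2 (by omega))
  have h2 : (∑ i ∈ Finset.range (n + 1), Finsupp.single (en r i) (n + 1)) ≤ Book_g en n L :=
    List.single_le_sum (fun _ _ => bot_le) _ (List.mem_map_of_mem hr)
  have h3 := (h1.trans h2) (en r i)
  rwa [Finsupp.single_eq_same] at h3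

/-- a sequence of the kind needed for `exists_fus`, for a step which may use the whole state; `R n k p p'`: at stage `n`, with `k`, it is allowed to pass
from `p` to `p'` -/
theorem exists_book (R : ℕ → (Ω →₀ ℕ) → Cn Ω md ζ → Cn Ω md ζ → Prop)
    (hs : ∀ n k p, NR p → ∃ p', PLe k p' p ∧ NR p' ∧ R n k p p') (k : Ω →₀ ℕ) (p : Cn Ω md ζ) :
    ∃ (r : ℕ → Cn Ω md ζ) (κ : ℕ → Ω →₀ ℕ), PLe k (r 0) p ∧ (∀ ξ, k ξ ≤ κ 0 ξ) ∧
      (∀ l, PLe (κ l) (r (l + 1)) (r l)) ∧ (∀ l, NR (r l)) ∧ (∀ l ξ, κ l ξ ≤ κ (l + 1) ξ) ∧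
      (∀ l, ∀ ξ ∈ (r l).supp, ∀ m, ∃ l', m ≤ κ l' ξ) ∧ ∀ l, R l (κ l) (r l) (r (l + 1)) := by
  obtain ⟨en, hen⟩ := Book_en Ω md ζ
  have hs' : ∀ n k p, ∃ p', NR p → (PLe k p' p ∧ NR p' ∧ R n k p p') := by
    intro n k p
    by_cases hp : NR p
    · obtain ⟨p', h⟩ := hs n k p hp
      exact ⟨p', fun _ => h⟩
    · exact ⟨p, fun h => absurd h hp⟩
  choose f hf using hs'
  obtain ⟨p0, hp0, hp0n, _⟩ := exists_norm p
  let st : ℕ → (Cn Ω md ζ × (Ω →₀ ℕ) × List (Cn Ω md ζ)) := fun l =>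
    Nat.rec (p0, k + Book_g en 0 [p0], [p0]) (fun l s =>
      (f l s.2.1 s.1, s.2.1 + Book_g en (l + 1) (f l s.2.1 s.1 :: s.2.2),
        f l s.2.1 s.1 :: s.2.2)) l
  have st0 : st 0 = (p0, k + Book_g en 0 [p0], [p0]) := rfl
  have stS : ∀ l, st (l + 1) = (f l (st l).2.1 (st l).1,
      (st l).2.1 + Book_g en (l + 1) (f l (st l).2.1 (st l).1 :: (st l).2.2),
      f l (st l).2.1 (st l).1 :: (st l).2.2) := fun l => rfl
  have hNR : ∀ l, NR (st l).1 := by
    intro l
    induction l with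
    | zero => exact hp0n
    | succ l ih => exact (hf l (st l).2.1 (st l).1 ih).2.1
  have hmem : ∀ l j, l ≤ j → (st l).1 ∈ (st j).2.2 := by
    intro l j hlj
    induction j, hlj using Nat.le_induction with
    | base =>
      cases l with
      | zero => exact List.mem_singleton.2 rfl
      | succ l => exact List.mem_cons_self
    | succ j _ ih => exact List.mem_cons_of_mem _ ih
  have hg : ∀ j, Book_g en j (st j).2.2 ≤ (st j).2.1 := by
    intro j
    cases j with
    | zero => exact le_add_of_nonneg_left bot_le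
    | succ j => exact le_add_of_nonneg_left bot_le
  refine ⟨fun l => (st l).1, fun l => (st l).2.1, hp0 k, fun ξ => ?_, fun l => ?_, hNR,
    fun l ξ => ?_, fun l ξ hξ m => ?_, fun l => ?_⟩
  · show k ξ ≤ (k + Book_g en 0 [p0]) ξ
    rw [Finsupp.add_apply]
    exact Nat.le_add_right _ _
  · exact (hf l (st l).2.1 (st l).1 (hNR l)).1
  · show (st l).2.1 ξ ≤ (st (l + 1)).2.1 ξ
    rw [stS l]
    show (st l).2.1 ξ ≤ ((st l).2.1 + _) ξ
    rw [Finsupp.add_apply]
    exact Nat.le_add_right _ _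
  · obtain ⟨t, ht⟩ := hen _ ξ hξ
    refine ⟨max l (max t m), ?_⟩
    have h1 := Book_g_le en (max l (max t m)) (st (max l (max t m))).2.2
      (hmem l _ (le_max_left _ _)) (i := t) ((le_max_left t m).trans (le_max_right _ _))
    rw [ht] at h1
    have h2 := hg (max l (max t m)) ξ
    have h3 : m ≤ max l (max t m) := (le_max_right t m).trans (le_max_right _ _)
    exact (Nat.le_succ_of_le h3).trans (h1.trans h2)
  · exact (hf l (st l).2.1 (st l).1 (hNR l)).2.2

theorem fusion_all (Φ : ℕ → Cn Ω md ζ → Prop) (hm : ∀ n p q, q ≤ p → Φ n p → Φ n q)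
    (hs : ∀ n (k : Ω →₀ ℕ) p, NR p → ∃ p', PLe k p' p ∧ Φ n p') (k : Ω →₀ ℕ) (p : Cn Ω md ζ) :
    ∃ q, PLe k q p ∧ NR q ∧ ∀ n, Φ n q := by
  obtain ⟨r, κ, h1, h2, h3, h4, h5, h6, h7⟩ := exists_book (fun n _ _ p' => Φ n p') (fun n k p hp => by
    obtain ⟨p', hp', hΦ⟩ := hs n k p hp
    obtain ⟨p'', k1, k2, _⟩ := exists_norm p'
    exact ⟨p'', (k1 k).trans hp', k2, hm n p' p'' (k1 k).le hΦ⟩) k p
  obtain ⟨q, k1, k2, _⟩ := exists_fus r κ h3 h4 h5 h6
  exact ⟨q, ((k1 0).mono fun ξ _ => h2 ξ).trans h1, k2, fun n => hm n _ _ (k1 (n + 1)).le (h7 n)⟩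

end Pool.Agent.Lib.MP_011f3a_lc.LM
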