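import Pool.Agent.Lib.MP_011f3a_lc.LM.B.Defs

/-! # The first splitting node, normal trees (module B-ST)

`St.unique`: `a` and `b` are comparable; if `a` is a proper initial segment of `b`, a child `a ++ [n]` which is not an initial segment
of `b` (there are infinitely many children) is not comparable with `b`. `exists_St`: a splitting node of minimal length; by `Nm` and
minimality its proper initial segments have at most one child, so all nodes are comparable with it. `Laver.nm`: a node which is a
proper initial segment of the stem has only one child. -/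

namespace Pool.Agent.Lib.MP_011f3a_lc.LM

variable {md : Md} {T T' : Set (List ℕ)} {s t a b : List ℕ}

/-- a proper extension of `a` extends a child of `a` -/
private theorem st_child (h : a <+: b) (hne : a ≠ b) : ∃ n, a ++ [n] <+: b := by
  obtain ⟨u, rfl⟩ := h
  cases u with
  | nil => simp at hne
  | cons n u => exact ⟨n, u, by simp⟩

/-- a splitting node `a` has a child which is not comparable with a proper extension of `a` -/
private theorem st_aux (hab : a <+: b) (hne : a ≠ b) (hs : Split T a) :
    ∃ n, a ++ [n] ∈ T ∧ ¬ (a ++ [n] <+: b) ∧ ¬ (b <+: a ++ [n]) := by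
  obtain ⟨m, hm⟩ := st_child hab hne
  obtain ⟨n, hn, hn'⟩ := hs.2 (m + 1)
  have key : ¬ (a ++ [n] <+: b) := by
    intro h
    have h1 : a ++ [n] = a ++ [m] := by
      rcases prefix_or h hm with h3 | h3
      · exact h3.eq_of_length (by simp)
      · exact (h3.eq_of_length (by simp)).symm
    simp at h1
    omega
  refine ⟨n, hn', key, fun h => key ?_⟩
  have h2 : b.length ≤ a.length + 1 := by simpa using h.length_le
  have h3 : a.length + 1 ≤ b.length := by simpa using hm.length_le
  have h4 : b = a ++ [n] := h.eq_of_length (by simp; omega)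
  rw [h4]

private theorem st_prefix_of_split (h : St T a) (h' : Split T b) (hT : a <+: b ∨ b <+: a) : a <+: b := by
  rcases hT with h1 | h1
  · exact h1
  · by_contra hne
    have hba : b ≠ a := fun e => hne (e ▸ List.prefix_refl _)
    obtain ⟨n, hn, h2, h3⟩ := st_aux h1 hba h'
    rcases h.2 _ hn with h4 | h4
    · exact h2 h4
    · exact h3 h4

theorem St.unique (h : St T a) (h' : St T b) : a = b := by
  have h1 := st_prefix_of_split h h'.1 (h'.2 a h.1.1)
  have h2 := st_prefix_of_split h' h.1 (h.2 b h'.1.1)
  exact h1.eq_of_length_le h2.length_le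

theorem St.mem (h : St T a) : a ∈ T := h.1.1

theorem exists_St (h : TC md T) (hn : Nm T) : ∃ a, St T a := by
  classical
  have hex : ∃ k, ∃ a, Split T a ∧ a.length = k := by
    obtain ⟨a, _, ha⟩ := h.exists_split h.nil_mem
    exact ⟨_, a, ha, rfl⟩
  obtain ⟨a, ha, hk⟩ := Nat.find_spec hex
  refine ⟨a, ha, ?_⟩
  have hmin : ∀ s, Split T s → a.length ≤ s.length := fun s hs => by
    rw [hk]
    exact Nat.find_min' hex ⟨s, hs, rfl⟩
  intro s hs
  induction s using List.reverseRecOn with
  | nil => exact Or.inl List.nil_prefix
  | append_singleton s n ih =>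
    have hs' : s ∈ T := h.isTree s n hs
    rcases ih hs' with h1 | h1
    · by_cases he : s = a
      · subst he
        exact Or.inr (List.prefix_append _ _)
      · obtain ⟨m, hm⟩ := st_child h1 he
        have hm' : s ++ [m] ∈ T := h.isTree.of_prefix hm ha.1
        rcases hn s hs' with h2 | h2
        · have h3 := hmin s h2
          have h4 := hm.length_le
          simp at h4
          omega
        · have := h2 n m hs hm'
          subst this
          exact Or.inl hm
    · exact Or.inr (h1.trans (List.prefix_append _ _))

theorem Nm.univ : Nm (Set.univ : Set (List ℕ)) :=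
  fun _ _ => Or.inl ⟨trivial, fun m => ⟨m, le_refl _, trivial⟩⟩

theorem nm_abv (h : Nm T) (s : List ℕ) : Nm (abv T s) := by
  intro t ht
  by_cases h1 : s <+: t
  · rcases h t ht.1 with h2 | h2
    · exact Or.inl (split_abv h2 h1)
    · exact Or.inr fun n n' hn hn' => h2 n n' hn.1 hn'.1
  · right
    intro n n' hn hn'
    have key : ∀ k, t ++ [k] ∈ abv T s → t ++ [k] <+: s := by
      intro k hk
      rcases hk.2 with h3 | h3
      · exact h3
      · rcases ht.2 with h4 | h4
        · have h5 := h3.length_le
          have h6 := h4.length_le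
          simp at h5
          rcases Nat.lt_or_ge t.length s.length with h7 | h7
          · rw [h3.eq_of_length (by simp; omega)]
          · exact absurd ((h4.eq_of_length (by omega)) ▸ List.prefix_refl _) h1
        · exact absurd h4 h1
    have e : t ++ [n] = t ++ [n'] := by
      rcases prefix_or (key n hn) (key n' hn') with h3 | h3
      · exact h3.eq_of_length (by simp)
      · exact (h3.eq_of_length (by simp)).symm
    simpa using e

theorem Laver.nm (h : Laver T) : Nm T := by
  obtain ⟨hT, s₀, hs₀, h⟩ := h
  intro s hs
  by_cases h1 : s₀ <+: s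
  · exact Or.inl ((h s hs).2 h1)
  · right
    intro n n' hn hn'
    have hss : s <+: s₀ := by
      rcases (h s hs).1 with h2 | h2
      · exact h2
      · exact absurd h2 h1
    have key : ∀ k, s ++ [k] ∈ T → s ++ [k] <+: s₀ := by
      intro k hk
      rcases (h _ hk).1 with h3 | h3
      · exact h3
      · have h5 := h3.length_le
        have h6 := hss.length_le
        simp at h5
        rcases Nat.lt_or_ge s.length s₀.length with h7 | h7
        · rw [h3.eq_of_length (by simp; omega)]
        · exact absurd ((hss.eq_of_length (by omega)) ▸ List.prefix_refl _) h1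
    have e : s ++ [n] = s ++ [n'] := by
      rcases prefix_or (key n hn) (key n' hn') with h3 | h3
      · exact h3.eq_of_length (by simp)
      · exact (h3.eq_of_length (by simp)).symm
    simpa using e

theorem Laver.exists_st (h : Laver T) : ∃ a, St T a ∧ ∀ s ∈ T, a <+: s → Split T s := by
  obtain ⟨hT, s₀, hs₀, h⟩ := h
  exact ⟨s₀, ⟨(h s₀ hs₀).2 (List.prefix_refl _), fun s hs => (h s hs).1⟩, fun s hs h1 => (h s hs).2 h1⟩

theorem laver_of_st (ht : IsTree T) (h : St T a) (h' : ∀ s ∈ T, a <+: s → Split T s) : Laver T :=
  ⟨ht, a, h.1.1, fun s hs => ⟨h.2 s hs, h' s hs⟩⟩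

/-- above the stem all nodes of a Laver tree are splitting -/
theorem Laver.split (h : Laver T) (ha : St T a) (hs : s ∈ T) (has : a <+: s) : Split T s := by
  obtain ⟨b, hb, hb'⟩ := h.exists_st
  have := ha.unique hb
  subst this
  exact hb' s hs has

theorem Laver.st_abv (h : Laver T) (ha : St T a) (hs : s ∈ T) (has : a <+: s) : St (abv T s) s :=
  ⟨split_abv (h.split ha hs has) (List.prefix_refl _), fun _ ht => ht.2⟩

theorem St.abv_of_prefix (h : St T a) (hs : s <+: a) : abv T s = T := by
  ext t
  refine ⟨fun h1 => h1.1, fun h1 => ⟨h1, ?_⟩⟩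
  rcases h.2 t h1 with h2 | h2
  · exact prefix_or h2 hs
  · exact Or.inr (hs.trans h2)

/-- the stem of a smaller tree extends the stem -/
theorem St.prefix_of_subset (ht : TC md T') (h : St T a) (h' : St T' b) (hT : T' ⊆ T) : a <+: b :=
  st_prefix_of_split h (h'.1.mono hT) ((h.2 b (hT h'.1.1)).symm)

theorem St.of_subset (h : St T a) (hT : T' ⊆ T) (hs : Split T' a) : St T' a :=
  ⟨hs, fun s hs' => h.2 s (hT hs')⟩

end Pool.Agent.Lib.MP_011f3a_lc.LM
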