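import Pool.Agent.Lib.MP_011f3a_lc.LM.B.Kp

/-! # The fusion orders on trees (module B-TLE) -/

namespace Pool.Agent.Lib.MP_011f3a_lc.LM

variable {md : Md} {T T' T'' : Set (List ℕ)} {s a b : List ℕ} {r : List ℕ} {m m' : ℕ}

theorem TLe.sub (h : TLe m T' T) : T' ⊆ T := h.1

theorem tle_zero : TLe 0 T' T ↔ T' ⊆ T :=
  ⟨fun h => h.1, fun h => ⟨h, fun _ hr => absurd hr (Nat.not_lt_zero _)⟩⟩

theorem TLe.refl (m : ℕ) (T : Set (List ℕ)) : TLe m T T :=
  ⟨subset_rfl, fun _ _ hn => ⟨hn, fun _ ha => ha⟩⟩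

theorem TLe.trans (h : TLe m T'' T') (h' : TLe m T' T) : TLe m T'' T := by
  refine ⟨h.1.trans h'.1, fun r hr hn => ?_⟩
  have h1 := h'.2 r hr hn
  have h2 := h.2 r hr h1.1
  exact ⟨h2.1, fun a ha => h2.2 a (h1.2 a ha)⟩

theorem TLe.mono (h : TLe m T' T) (hm : m' ≤ m) : TLe m' T' T :=
  ⟨h.1, fun r hr hn => h.2 r (lt_of_lt_of_le hr hm) hn⟩

theorem TLe.nm (h : TLe m T' T) (hm : 0 < m) (hn : Nm T) : Nm T' :=
  (h.2 [] (by rw [wt_nil]; exact hm) hn).1

/-- for a smaller tree the index of a kept node is at most the old one, but the nodes of small weight are the same -/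
theorem TLe.kp_iff (h : TLe m T' T) (ht : TC md T) (hn : Nm T) (hr : wt r < m) : Kp T' r a ↔ Kp T r a := by
  refine ⟨fun ha => ?_, (h.2 r hr hn).2 a⟩
  obtain ⟨a', ha'⟩ := exists_kp ht hn r
  have := ha.unique ((h.2 r hr hn).2 a' ha')
  exact this ▸ ha'

theorem TLe.st (h : TLe m T' T) (hm : 0 < m) (hn : Nm T) (ha : St T a) : St T' a :=
  (h.2 [] (by rw [wt_nil]; exact hm) hn).2 a ha

/-- for `m = 1` only the first splitting node matters -/
theorem tle_one (ht : TC md T) (hn : Nm T) (hn' : Nm T') (hT : T' ⊆ T) (ha : St T a) (ha' : St T' a) : TLe 1 T' T := by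
  refine ⟨hT, fun r hr _ => ⟨hn', fun b hb => ?_⟩⟩
  cases r with
  | nil =>
    have : b = a := St.unique hb ha
    exact this ▸ ha'
  | cons n r =>
    rw [wt_cons] at hr
    omega

end Pool.Agent.Lib.MP_011f3a_lc.LM
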